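import Pool.Agent.Q247.PG.Enum

/-! Backward iteration of the remainders. -/

set_option autoImplicit false

namespace Q247.PG

variable {φ : ℝ}

/-- first coordinate of the `k`-th previous remainder -/
def Ru (φ : ℝ) : ℕ → ℝ → ℝ → ℝ
  | 0, u, _ => u
  | (k + 1), u, v => Ru φ k (-φ * v) (u - φ ^ 2 * v)

/-- second coordinate of the `k`-th previous remainder -/
def Rv (φ : ℝ) : ℕ → ℝ → ℝ → ℝ
  | 0, _, v => v
  | (k + 1), u, v => Rv φ k (-φ * v) (u - φ ^ 2 * v)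

theorem Ru_smul (k : ℕ) : ∀ t u v : ℝ, Ru φ k (t * u) (t * v) = t * Ru φ k u v := by
  induction k with
  | zero => intro t u v; rfl
  | succ k ih =>
    intro t u v
    rw [Ru, Ru, ← ih]
    congr 1 <;> ring

theorem Rv_smul (k : ℕ) : ∀ t u v : ℝ, Rv φ k (t * u) (t * v) = t * Rv φ k u v := by
  induction k with
  | zero => intro t u v; rfl
  | succ k ih =>
    intro t u v
    rw [Rv, Rv, ← ih]
    congr 1 <;> ring

theorem R_seq (hφ : φ ^ 3 = φ + 1) (k : ℕ) : ∀ n : ℕ,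
    Ru φ k (e φ (n + k)) (d φ (n + k)) = e φ n ∧ Rv φ k (e φ (n + k)) (d φ (n + k)) = d φ n := by
  induction k with
  | zero => intro n; exact ⟨rfl, rfl⟩
  | succ k ih =>
    intro n
    have h1 : -φ * d φ (n + (k + 1)) = e φ (n + k) := by
      rw [show n + (k + 1) = n + k + 1 by ring, d_succ hφ]
      generalize e φ (n + k) = u
      linear_combination u * hφ
    have h2 : e φ (n + (k + 1)) - φ ^ 2 * d φ (n + (k + 1)) = d φ (n + k) := by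
      rw [show n + (k + 1) = n + k + 1 by ring, d_succ hφ, e_succ]
      generalize e φ (n + k) = u
      generalize d φ (n + k) = v
      linear_combination u * φ * hφ
    rw [Ru, Rv, h1, h2]
    exact ih n

theorem Q_back (hφ : φ ^ 3 = φ + 1) (k : ℕ) : ∀ u v : ℝ,
    Q φ (Ru φ k u v) (Rv φ k u v) = φ ^ k * Q φ u v := by
  induction k with
  | zero => intro u v; simp [Ru, Rv]
  | succ k ih =>
    intro u v
    rw [Ru, Rv, ih]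
    have : Q φ (-φ * v) (u - φ ^ 2 * v) = φ * Q φ u v := by
      rw [Q, Q]; grind
    rw [this]; ring

theorem Ru1 (u v : ℝ) : Ru φ 1 u v = -φ * v := rfl
theorem Rv1 (u v : ℝ) : Rv φ 1 u v = u - φ ^ 2 * v := rfl
theorem Ru2 (hφ : φ ^ 3 = φ + 1) (u v : ℝ) : Ru φ 2 u v = (φ + 1) * v - φ * u := by
  rw [Ru, Ru1]; grind
theorem Rv2 (hφ : φ ^ 3 = φ + 1) (u v : ℝ) : Rv φ 2 u v = φ ^ 2 * (v - u) := by
  rw [Rv, Rv1]; grind
theorem Ru3 (hφ : φ ^ 3 = φ + 1) (u v : ℝ) : Ru φ 3 u v = (φ + 1) * (u - v) := by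
  rw [Ru, Ru2 hφ]; grind
theorem Rv3 (hφ : φ ^ 3 = φ + 1) (u v : ℝ) : Rv φ 3 u v = φ ^ 2 * u - (φ ^ 2 - 1) * v := by
  rw [Rv, Rv2 hφ]; grind
theorem Ru4 (hφ : φ ^ 3 = φ + 1) (u v : ℝ) : Ru φ 4 u v = v - (φ + 1) * u := by
  rw [Ru, Ru3 hφ]; grind
theorem Rv4 (hφ : φ ^ 3 = φ + 1) (u v : ℝ) : Rv φ 4 u v = -((φ ^ 2 - 1) * u + v) := by
  rw [Rv, Rv3 hφ]; grind
theorem Ru5 (hφ : φ ^ 3 = φ + 1) (u v : ℝ) : Ru φ 5 u v = u + φ * v := by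
  rw [Ru, Ru4 hφ]; grind
theorem Rv5 (hφ : φ ^ 3 = φ + 1) (u v : ℝ) : Rv φ 5 u v = (1 + φ ^ 2) * v - u := by
  rw [Rv, Rv4 hφ]; grind
theorem Ru6 (hφ : φ ^ 3 = φ + 1) (u v : ℝ) : Ru φ 6 u v = φ * u - (2 * φ + 1) * v := by
  rw [Ru, Ru5 hφ]; grind
theorem Rv6 (hφ : φ ^ 3 = φ + 1) (u v : ℝ) :
    Rv φ 6 u v = (1 + φ ^ 2) * u - 2 * φ ^ 2 * v := by
  rw [Rv, Rv5 hφ]; grind

/-- remainder of `a z_n + b z_{n+1} + c z_{n+2}`, first coordinate -/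
def cu (φ a b c u v : ℝ) : ℝ := a * u + b * (v - φ * u) + c * (u - φ * v)

/-- remainder of `a z_n + b z_{n+1} + c z_{n+2}`, second coordinate -/
def cv (φ a b c u v : ℝ) : ℝ :=
  a * v + b * (-(φ ^ 2 - 1) * u) + c * (u - (φ ^ 2 - 1) * v)

theorem Q_comb (hφ : φ ^ 3 = φ + 1) (a b c u v : ℝ) :
    Q φ (cu φ a b c u v) (cv φ a b c u v) = q φ a b c * Q φ u v := by
  rw [Q, Q, q_lin hφ, cu, cv]; grind

theorem cu_seq (hφ : φ ^ 3 = φ + 1) (a b c : ℝ) (n : ℕ) :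
    cu φ a b c (e φ n) (d φ n) = a * e φ n + b * e φ (n + 1) + c * e φ (n + 2) := by
  rw [cu, e_succ n, show n + 2 = n + 1 + 1 from rfl, e_succ (n + 1), e_succ n, d_succ hφ]
  ring

theorem cv_seq (hφ : φ ^ 3 = φ + 1) (a b c : ℝ) (n : ℕ) :
    cv φ a b c (e φ n) (d φ n) = a * d φ n + b * d φ (n + 1) + c * d φ (n + 2) := by
  rw [cv, show n + 2 = n + 1 + 1 from rfl, d_succ hφ (n + 1), e_succ n, d_succ hφ]
  generalize e φ n = u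
  generalize d φ n = v
  grind

/-- The properties of the norm that are used. -/
structure NOK (N : ℝ → ℝ → ℝ) : Prop where
  hom : ∀ t a b : ℝ, N (t * a) (t * b) = |t| * N a b
  l1 : ∀ a b : ℝ, |a| ≤ N a b
  l2 : ∀ a b : ℝ, |b| ≤ N a b
  ub : ∀ a b : ℝ, N a b ≤ |a| + |b|

theorem NOK.nonneg {N : ℝ → ℝ → ℝ} (h : NOK N) (a b : ℝ) : 0 ≤ N a b :=
  (abs_nonneg a).trans (h.l1 a b)

theorem NOK.neg {N : ℝ → ℝ → ℝ} (h : NOK N) (a b : ℝ) : N (-a) (-b) = N a b := by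
  have := h.hom (-1) a b
  simpa using this

theorem NOK.Q_le {N : ℝ → ℝ → ℝ} (h : NOK N) (hφ : φ ^ 3 = φ + 1) (a b : ℝ) :
    Q φ a b ≤ 4.0801 * N a b ^ 2 := by
  have h1 := h.l1 a b
  have h2 := h.l2 a b
  have h0 := h.nonneg a b
  have e1 : a ^ 2 ≤ N a b ^ 2 := by rw [← sq_abs a]; exact pow_le_pow_left₀ (abs_nonneg _) h1 2
  have e2 : b ^ 2 ≤ N a b ^ 2 := by rw [← sq_abs b]; exact pow_le_pow_left₀ (abs_nonneg _) h2 2
  have e3 : |a * b| ≤ N a b ^ 2 := by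
    rw [abs_mul, sq]; exact mul_le_mul h1 h2 (abs_nonneg _) h0
  have e4 : -(a * b) ≤ N a b ^ 2 := (neg_le_abs _).trans e3
  have p1 := phi_gt hφ
  have p2 := phi_lt hφ
  have s1 := phisq_gt hφ
  have s2 := phisq_lt hφ
  rw [Q]
  have f1 : φ ^ 2 * -(a * b) ≤ φ ^ 2 * N a b ^ 2 := mul_le_mul_of_nonneg_left e4 (by positivity)
  have f2 : φ * b ^ 2 ≤ φ * N a b ^ 2 := mul_le_mul_of_nonneg_left e2 (by linarith)
  have f3 : (1 + φ ^ 2 + φ) * N a b ^ 2 ≤ 4.0801 * N a b ^ 2 :=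
    mul_le_mul_of_nonneg_right (by norm_num at *; linarith) (sq_nonneg _)
  nlinarith

/-- the domination property -/
def Dom (N : ℝ → ℝ → ℝ) (φ : ℝ) : Prop :=
  ∀ (w : ℝ) (a b c : ℤ), 0.999 < a + b * φ + c * φ ^ 2 → a + b * φ + c * φ ^ 2 < φ + 0.001 →
    (a, b, c) ≠ (1, 0, 0) → (a, b, c) ≠ (0, 1, 0) →
    ∃ k : ℕ, k ≤ 3 ∧ N (Ru φ k w 1) (Rv φ k w 1) ≤ N (cu φ a b c w 1) (cv φ a b c w 1)

/-- the criterion -/
structure Crit (N : ℝ → ℝ → ℝ) (φ w₂ : ℝ) : Prop where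
  best : ∀ w : ℝ, w ≠ 0 → w < w₂ → ∀ k : ℕ, 1 ≤ k → N w 1 < N (Ru φ k w 1) (Rv φ k w 1)
  bad : ∀ w : ℝ, w₂ ≤ w → ∃ k : ℕ, 1 ≤ k ∧ k ≤ 3 ∧ N (Ru φ k w 1) (Rv φ k w 1) ≤ N w 1

end Q247.PG
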