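import Mathlib

/-! Best approximations to `(φ, φ²)`, `φ³ = φ + 1`: Padovan vectors and their remainders. -/

set_option autoImplicit false

namespace Q247.PG

/-- The Padovan numbers. -/
def P : ℕ → ℤ
  | 0 => 1
  | 1 => 1
  | 2 => 1
  | (n + 3) => P (n + 1) + P n

theorem P_rec (n : ℕ) : P (n + 3) = P (n + 1) + P n := rfl

theorem P_pos : ∀ n : ℕ, 1 ≤ P n
  | 0 => by norm_num [P]
  | 1 => by norm_num [P]
  | 2 => by norm_num [P]
  | (n + 3) => by
      rw [P_rec]
      have h1 := P_pos (n + 1)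
      have h2 := P_pos n
      linarith

theorem P_mono_succ : ∀ n : ℕ, P n ≤ P (n + 1)
  | 0 => by norm_num [P]
  | 1 => by norm_num [P]
  | 2 => by norm_num [P]
  | (n + 3) => by
      have h1 := P_mono_succ (n + 1)
      have h2 := P_mono_succ n
      have e1 := P_rec n
      have e2 := P_rec (n + 1)
      simp only [show n + 1 + 3 = n + 4 from rfl, show n + 1 + 1 = n + 2 from rfl] at *
      rw [show n + 3 + 1 = n + 4 from rfl]
      linarith

theorem P_mono : Monotone P := monotone_nat_of_le_succ P_mono_succ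

/-- strict growth from the index `5` on -/
theorem P_lt_succ : ∀ n : ℕ, 5 ≤ n → P n < P (n + 1) := by
  intro n hn
  obtain ⟨m, rfl⟩ := Nat.exists_eq_add_of_le hn
  clear hn
  induction m using Nat.strong_induction_on with
  | _ m ih =>
    match m, ih with
    | 0, _ => decide
    | 1, _ => decide
    | 2, _ => decide
    | (m + 3), ih =>
      have h1 := ih m (by omega)
      have h2 := ih (m + 1) (by omega)
      have e1 := P_rec (5 + m)
      have e2 := P_rec (5 + m + 1)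
      have a1 : 5 + (m + 3) = 5 + m + 3 := by ring
      have a2 : 5 + (m + 3) + 1 = 5 + m + 1 + 3 := by ring
      have a3 : 5 + (m + 1) + 1 = 5 + m + 1 + 1 := by ring
      have a4 : 5 + (m + 1) = 5 + m + 1 := by ring
      rw [a1, show 5 + m + 3 + 1 = 5 + m + 1 + 3 by ring, e1, e2]
      rw [a4] at h2
      linarith

variable {φ : ℝ}

theorem phi_gt (hφ : φ ^ 3 = φ + 1) : 1.3247 < φ := by
  by_contra h
  push Not at h
  have h2 : (1.3247 - φ) * (φ + 0.66235) ^ 2 ≥ 0 :=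
    mul_nonneg (by linarith) (sq_nonneg _)
  nlinarith [h2]

theorem phi_lt (hφ : φ ^ 3 = φ + 1) : φ < 1.3248 := by
  by_contra h
  push Not at h
  nlinarith [mul_nonneg (show (0:ℝ) ≤ φ - 1.3248 by linarith) (show (0:ℝ) ≤ φ by linarith),
    mul_nonneg (show (0:ℝ) ≤ φ - 1.3248 by linarith) (mul_self_nonneg φ)]

theorem phi_pos (hφ : φ ^ 3 = φ + 1) : 0 < φ := by linarith [phi_gt hφ]

theorem phi_irrat (hφ : φ ^ 3 = φ + 1) : Irrational φ := by
  have h1 := phi_gt hφ
  have h2 := phi_lt hφ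
  rintro ⟨q, hq⟩
  have hq3 : q ^ 3 = q + 1 := by
    have : ((q ^ 3 : ℚ) : ℝ) = ((q + 1 : ℚ) : ℝ) := by
      push_cast
      rw [hq]
      exact hφ
    exact_mod_cast this
  have hint : IsIntegral ℤ q := by
    refine ⟨Polynomial.X ^ 3 - Polynomial.X - 1, ?_, ?_⟩
    · monicity!
    · simp only [Polynomial.eval₂_sub, Polynomial.eval₂_pow, Polynomial.eval₂_X,
        Polynomial.eval₂_one]
      linarith
  obtain ⟨z, hz⟩ := IsIntegrallyClosed.isIntegral_iff.1 hint
  have hz' : (z : ℝ) = φ := by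
    rw [← hq, ← hz]
    simp
  rw [← hz'] at h1 h2
  have h3 : (1 : ℝ) < z := by linarith
  have h4 : (z : ℝ) < 2 := by linarith
  have h5 : (1 : ℤ) < z := by exact_mod_cast h3
  have h6 : z < (2 : ℤ) := by exact_mod_cast h4
  omega

/-- first remainder -/
noncomputable def e (φ : ℝ) (n : ℕ) : ℝ := P n * φ - P (n + 1)

/-- second remainder -/
noncomputable def d (φ : ℝ) (n : ℕ) : ℝ := P n * φ ^ 2 - P (n + 2)

theorem e_succ (n : ℕ) : e φ (n + 1) = d φ n - φ * e φ n := by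
  simp only [e, d, show n + 1 + 1 = n + 2 from rfl]
  ring

theorem d_succ (hφ : φ ^ 3 = φ + 1) (n : ℕ) : d φ (n + 1) = -(φ ^ 2 - 1) * e φ n := by
  simp only [e, d, show n + 1 + 2 = n + 3 from rfl, P_rec]
  push_cast
  linear_combination (P n : ℝ) * hφ

/-- The invariant quadratic form. -/
def Q (φ u v : ℝ) : ℝ := u ^ 2 - φ ^ 2 * u * v + φ * v ^ 2

theorem Q_succ (hφ : φ ^ 3 = φ + 1) (n : ℕ) :
    φ * Q φ (e φ (n + 1)) (d φ (n + 1)) = Q φ (e φ n) (d φ n) := by
  rw [e_succ, d_succ hφ, Q, Q]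
  generalize e φ n = u
  generalize d φ n = v
  grind

theorem Q_pos (hφ : φ ^ 3 = φ + 1) {u v : ℝ} (h : u ≠ 0 ∨ v ≠ 0) : 0 < Q φ u v := by
  have h1 := phi_gt hφ
  have h2 := phi_lt hφ
  rw [Q]
  have key : u ^ 2 - φ ^ 2 * u * v + φ * v ^ 2 =
    (u - φ ^ 2 / 2 * v) ^ 2 + (φ - φ ^ 4 / 4) * v ^ 2 := by ring
  have h4 : φ - φ ^ 4 / 4 = (3 * φ - φ ^ 2) / 4 := by linear_combination (-φ / 4) * hφ
  rw [key, h4]
  have h5 : 0 < (3 * φ - φ ^ 2) / 4 := by nlinarith
  by_cases hv : v = 0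
  · subst hv
    have hu : u ≠ 0 := by tauto
    have : 0 < u ^ 2 := by positivity
    simpa using this
  · have : 0 < (3 * φ - φ ^ 2) / 4 * v ^ 2 := by positivity
    nlinarith [sq_nonneg (u - φ ^ 2 / 2 * v)]

end Q247.PG
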