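import Pool.Agent.Q247.PG.Vec

/-! Best approximation vectors of large height are Padovan vectors. -/

set_option autoImplicit false
set_option maxHeartbeats 1000000

open Filter Topology

namespace Q247.PG

variable {φ : ℝ}

/-- best approximation vectors of `(φ, φ²)` -/
def IsBest (N : ℝ → ℝ → ℝ) (φ : ℝ) (x y₁ y₂ : ℤ) : Prop :=
  (x, y₁, y₂) ≠ (0, 0, 0) ∧ ∀ x' y₁' y₂' : ℤ, |x'| ≤ |x| →
    N (x' * φ - y₁') (x' * φ ^ 2 - y₂') ≤ N (x * φ - y₁) (x * φ ^ 2 - y₂) →
    (x', y₁', y₂') = (0, 0, 0) ∨ (x', y₁', y₂') = (x, y₁, y₂) ∨ (x', y₁', y₂') = (-x, -y₁, -y₂)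

/-- the heights of the best approximation vectors -/
def heights (N : ℝ → ℝ → ℝ) (φ : ℝ) : Set ℕ :=
  {m | ∃ x y₁ y₂ : ℤ, IsBest N φ x y₁ y₂ ∧ (m : ℤ) = |x|}

theorem isBest_neg {N : ℝ → ℝ → ℝ} (hN : NOK N) {x y₁ y₂ : ℤ} (h : IsBest N φ x y₁ y₂) :
    IsBest N φ (-x) (-y₁) (-y₂) := by
  obtain ⟨h0, h1⟩ := h
  have e : N (((-x : ℤ) : ℝ) * φ - ((-y₁ : ℤ) : ℝ)) (((-x : ℤ) : ℝ) * φ ^ 2 - ((-y₂ : ℤ) : ℝ)) =
      N (x * φ - y₁) (x * φ ^ 2 - y₂) := by
    rw [← hN.neg (x * φ - y₁)]
    push_cast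
    congr 1 <;> ring
  refine ⟨?_, fun x' y₁' y₂' hx hn => ?_⟩
  · intro hc
    apply h0
    simp only [Prod.mk.injEq, neg_eq_zero] at hc ⊢
    exact hc
  · rw [e] at hn
    rw [abs_neg] at hx
    rcases h1 x' y₁' y₂' hx hn with h | h | h
    · exact Or.inl h
    · right; right; rw [h]; simp
    · right; left; exact h

/-- small heights have large remainders -/
theorem far {N : ℝ → ℝ → ℝ} (hN : NOK N) (hφ : φ ^ 3 = φ + 1) (x y₁ y₂ : ℤ) (hx : 1 ≤ x)
    (h1 : N (x * φ - y₁) (x * φ ^ 2 - y₂) ≤ 1) :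
    1 ≤ 30 * (x : ℝ) * N (x * φ - y₁) (x * φ ^ 2 - y₂) ^ 2 := by
  have p1 := phi_gt hφ
  have p2 := phi_lt hφ
  have s1 := phisq_gt hφ
  have s2 := phisq_lt hφ
  have hx' : (1 : ℝ) ≤ x := by exact_mod_cast hx
  set f1 : ℝ := x * φ - y₁ with hf1
  set f2 : ℝ := x * φ ^ 2 - y₂ with hf2
  have a1 : |f1| ≤ 1 := (hN.l1 _ _).trans h1
  have a2 : |f2| ≤ 1 := (hN.l2 _ _).trans h1
  have hLe : L φ x y₁ y₂ = (3 * φ ^ 2 - 1) * x - (f2 + φ * f1) := L_eq _ _ _
  rw [abs_le] at a1 a2
  have hL1 : L φ x y₁ y₂ ≤ 7 * x := by rw [hLe]; nlinarith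
  have hL0 : 0 < L φ x y₁ y₂ := by rw [hLe]; nlinarith
  have hne : f1 ≠ 0 := by
    intro h
    rw [hf1, sub_eq_zero] at h
    apply phi_irrat hφ
    refine ⟨(y₁ : ℚ) / (x : ℚ), ?_⟩
    have h0 : (x : ℝ) ≠ 0 := by positivity
    push_cast
    rw [← h]
    field_simp
  have hQ0 : 0 < Q φ f1 f2 := Q_pos hφ (Or.inl hne)
  -- the norm form
  obtain ⟨F, hF⟩ : ∃ F : ℤ, (F : ℝ) = (φ ^ 2 - 1) * L φ x y₁ y₂ * Q φ f1 f2 := by
    refine ⟨(y₂ - x) ^ 3 + y₁ ^ 3 + x ^ 3 - (y₂ - x) * y₁ ^ 2 - 3 * (y₂ - x) * y₁ * x +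
      2 * (y₂ - x) ^ 2 * x + (y₂ - x) * x ^ 2 - y₁ * x ^ 2, ?_⟩
    rw [L, Q, hf1, hf2]
    push_cast
    grind
  have hF0 : (0 : ℝ) < F := by
    rw [hF]
    have : 0 < φ ^ 2 - 1 := by linarith
    positivity
  have hF1 : (1 : ℝ) ≤ F := by
    have : 0 < F := by exact_mod_cast hF0
    exact_mod_cast this
  have hQ1 := hN.Q_le hφ f1 f2
  have b1 : (φ ^ 2 - 1) * L φ x y₁ y₂ ≤ 0.7552 * (7 * x) :=
    mul_le_mul (by norm_num at *; linarith) hL1 hL0.le (by norm_num)
  have b2 : (φ ^ 2 - 1) * L φ x y₁ y₂ * Q φ f1 f2 ≤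
      0.7552 * (7 * x) * (4.0801 * N f1 f2 ^ 2) :=
    mul_le_mul b1 hQ1 hQ0.le (by positivity)
  rw [← hF] at b2
  have : 0 ≤ (x : ℝ) * N f1 f2 ^ 2 := by positivity
  norm_num at b2
  nlinarith

theorem P_ge (n : ℕ) : (n : ℤ) ≤ P (n + 3) := by
  induction n using Nat.strong_induction_on with
  | _ n ih =>
    match n, ih with
    | 0, _ => decide
    | 1, _ => decide
    | 2, _ => decide
    | (m + 3), ih =>
      have h1 := ih (m + 1) (by omega)
      have h2 := P_pos (m + 3)
      have h3 : P (m + 3 + 3) = P (m + 1 + 3) + P (m + 3) := rfl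
      rw [h3]
      have h4 : P (m + 3) ≥ 2 := by
        have := P_mono (show 3 ≤ m + 3 by omega)
        have h5 : P 3 = 2 := by decide
        omega
      push_cast at *
      linarith

theorem P_strict {m n : ℕ} (hm : 5 ≤ m) (h : m < n) : P m < P n := by
  obtain ⟨k, rfl⟩ := Nat.exists_eq_add_of_lt h
  induction k with
  | zero => exact P_lt_succ m hm
  | succ k ih =>
    refine (ih (by omega)).trans ?_
    exact P_lt_succ _ (by omega)

/-- every large integer lies in a Padovan window -/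
theorem window (n₀ : ℕ) (x : ℤ) (hx : P n₀ ≤ x) : ∃ n, n₀ ≤ n ∧ P n ≤ x ∧ x < P (n + 1) := by
  have hex : ∃ n, x < P n := ⟨(x + 1).toNat + 3, by
    have := P_ge (x + 1).toNat
    have h2 := P_pos n₀
    omega⟩
  classical
  set n := Nat.find hex with hn
  have h1 : x < P n := Nat.find_spec hex
  have h2 : n₀ < n := by
    by_contra hc
    push Not at hc
    have := P_mono hc
    omega
  obtain ⟨j, hj⟩ := Nat.exists_eq_add_of_lt h2
  refine ⟨n₀ + j, by omega, ?_, ?_⟩
  · have := Nat.find_min hex (show n₀ + j < n by omega)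
    omega
  · rw [show n₀ + j + 1 = n by omega]; exact h1

theorem scale {N : ℝ → ℝ → ℝ} (hN : NOK N) (hφ : φ ^ 3 = φ + 1) (k n : ℕ) :
    N (e φ (n + 1)) (d φ (n + 1)) = |d φ (n + 1 + k)| *
      N (Ru φ k (e φ (n + 1 + k) / d φ (n + 1 + k)) 1) (Rv φ k (e φ (n + 1 + k) / d φ (n + 1 + k)) 1) ∧
    N (e φ (n + 1 + k)) (d φ (n + 1 + k)) = |d φ (n + 1 + k)| *
      N (e φ (n + 1 + k) / d φ (n + 1 + k)) 1 := by
  have hd : d φ (n + 1 + k) ≠ 0 := by
    rw [show n + 1 + k = (n + k) + 1 by ring]; exact d_ne hφ _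
  have hseq := R_seq hφ k (n + 1)
  constructor
  · rw [← hN.hom, ← Ru_smul, ← Rv_smul, mul_one, mul_div_cancel₀ _ hd, hseq.1, hseq.2]
  · rw [← hN.hom, mul_one, mul_div_cancel₀ _ hd]

/-- earlier Padovan vectors are worse -/
theorem earlier {N : ℝ → ℝ → ℝ} (hN : NOK N) (hφ : φ ^ 3 = φ + 1) {w₂ : ℝ}
    (hC : Crit N φ w₂) {j n : ℕ} (hj : 1 ≤ j) (hjn : j < n) (h : e φ n / d φ n < w₂) :
    N (e φ n) (d φ n) < N (e φ j) (d φ j) := by
  obtain ⟨i, rfl⟩ := Nat.exists_eq_add_of_le' hj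
  obtain ⟨k, rfl⟩ := Nat.exists_eq_add_of_lt hjn
  rw [show i + 1 + k + 1 = i + 1 + (k + 1) by ring] at *
  have hd : d φ (i + 1 + (k + 1)) ≠ 0 := by
    rw [show i + 1 + (k + 1) = (i + k + 1) + 1 by ring]; exact d_ne hφ _
  obtain ⟨h1, h2⟩ := scale hN hφ (k + 1) i
  rw [h1, h2]
  refine mul_lt_mul_of_pos_left ?_ (abs_pos.2 hd)
  exact hC.best _ (div_ne_zero (e_ne hφ _) hd) h (k + 1) (by omega)

theorem pad_best_iff {N : ℝ → ℝ → ℝ} (hN : NOK N) (hφ : φ ^ 3 = φ + 1) (hD : Dom N φ) {w₂ : ℝ}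
    (hC : Crit N φ w₂) :
    ∃ n₁ : ℕ, 10 ≤ n₁ ∧ (∀ n, n₁ ≤ n → (IsBest N φ (P n) (P (n + 1)) (P (n + 2)) ↔
      e φ n / d φ n < w₂)) ∧
      ∀ x y₁ y₂ : ℤ, P n₁ ≤ x → IsBest N φ x y₁ y₂ →
        ∃ n, n₁ ≤ n ∧ (x, y₁, y₂) = (P n, P (n + 1), P (n + 2)) := by
  obtain ⟨n₀, hn₀5, hkey⟩ := key hN hφ hD
  have hsm : ∀ᶠ n in atTop, N (e φ n) (d φ n) ^ 2 * (30 * (P n₀ : ℝ)) < 1 := by
    have h1 := ((N_tendsto hN hφ).pow 2).mul_const (30 * (P n₀ : ℝ))
    simp only [ne_eq, OfNat.ofNat_ne_zero, not_false_eq_true, zero_pow, zero_mul] at h1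
    exact h1.eventually (gt_mem_nhds one_pos)
  obtain ⟨n₂, hn₂⟩ := eventually_atTop.1 hsm
  refine ⟨max (n₀ + 10) n₂, by omega, fun n hn => ?_, ?_⟩
  · have hn0 : n₀ + 10 ≤ n := (le_max_left _ _).trans hn
    have hnsm := hn₂ n ((le_max_right _ _).trans hn)
    have hrn := (hkey n (by omega)).1
    constructor
    · intro hb
      by_contra hge
      push Not at hge
      obtain ⟨k, hk1, hk3, hk⟩ := hC.bad _ hge
      obtain ⟨i, hi⟩ := Nat.exists_eq_add_of_le' (show 1 + k ≤ n by omega)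
      have hi' : n = i + 1 + k := by omega
      subst hi'
      obtain ⟨h1, h2⟩ := scale hN hφ k i
      have h3 : N (e φ (i + 1)) (d φ (i + 1)) ≤ N (e φ (i + 1 + k)) (d φ (i + 1 + k)) := by
        rw [h1, h2]; exact mul_le_mul_of_nonneg_left hk (abs_nonneg _)
      have hlt := P_strict (show 5 ≤ i + 1 by omega) (show i + 1 < i + 1 + k by omega)
      have hpp := P_pos (i + 1)
      have := hb.2 (P (i + 1)) (P (i + 1 + 1)) (P (i + 1 + 2)) (by
        rw [abs_of_pos (by omega), abs_of_pos (by omega)]; exact hlt.le) h3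
      rcases this with h | h | h
      · have := congrArg Prod.fst h; simp only at this; omega
      · have := congrArg Prod.fst h; simp only at this; omega
      · have := congrArg Prod.fst h; simp only at this; omega
    · intro hlt
      have hpn := P_pos n
      -- positive competitors
      have hpos : ∀ x' y₁' y₂' : ℤ, 1 ≤ x' → x' ≤ P n →
          N (x' * φ - y₁') (x' * φ ^ 2 - y₂') ≤ N (e φ n) (d φ n) →
          (x', y₁', y₂') = (P n, P (n + 1), P (n + 2)) := by
        intro x' y₁' y₂' hx1 hx2 hle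
        by_cases hsmall : x' < P n₀
        · exfalso
          have hf := far hN hφ x' y₁' y₂' hx1 (by linarith)
          have h2 : N (x' * φ - y₁') (x' * φ ^ 2 - y₂') ^ 2 ≤ N (e φ n) (d φ n) ^ 2 :=
            pow_le_pow_left₀ (hN.nonneg _ _) hle 2
          have h3 : (x' : ℝ) ≤ P n₀ := by exact_mod_cast hsmall.le
          have h4 : (0 : ℝ) ≤ x' := by exact_mod_cast (by omega : (0 : ℤ) ≤ x')
          have h5 : 30 * (x' : ℝ) * N (x' * φ - y₁') (x' * φ ^ 2 - y₂') ^ 2 ≤
              30 * (P n₀ : ℝ) * N (e φ n) (d φ n) ^ 2 := by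
            refine mul_le_mul (by linarith) h2 (sq_nonneg _) (by linarith)
          linarith
        push Not at hsmall
        obtain ⟨j, hj0, hj1, hj2⟩ := window n₀ x' hsmall
        have hjn : j ≤ n := by
          by_contra hc
          push Not at hc
          have := P_strict (show 5 ≤ n by omega) hc
          omega
        rcases (hkey j hj0).2 x' y₁' y₂' hj1 hj2 with h | ⟨k, hk, hkk⟩
        · rcases Nat.lt_or_eq_of_le hjn with h' | h'
          · exfalso
            have h6 := earlier hN hφ hC (show 1 ≤ j by omega) h' hlt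
            obtain ⟨rfl, rfl, rfl⟩ : x' = P j ∧ y₁' = P (j + 1) ∧ y₂' = P (j + 2) := by
              simpa using h
            exact absurd hle (not_le.2 h6)
          · rw [h, h']
        · have h7 : N (e φ (j - k)) (d φ (j - k)) ≤ N (e φ n) (d φ n) := hkk.trans hle
          rcases Nat.lt_or_ge (j - k) n with h' | h'
          · exfalso
            exact absurd h7 (not_le.2 (earlier hN hφ hC (show 1 ≤ j - k by omega) h' hlt))
          · have hjn' : j = n := by omega
            subst hjn'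
            have hx : x' = P j := le_antisymm hx2 hj1
            subst hx
            have g1 : |(P j : ℝ) * φ - y₁'| < 1 / 4 := ((hN.l1 _ _).trans hle).trans_lt hrn
            have g2 : |(P j : ℝ) * φ ^ 2 - y₂'| < 1 / 4 := ((hN.l2 _ _).trans hle).trans_lt hrn
            have g3 : |(P j : ℝ) * φ - P (j + 1)| < 1 / 4 := (hN.l1 _ _).trans_lt hrn
            have g4 : |(P j : ℝ) * φ ^ 2 - P (j + 2)| < 1 / 4 := (hN.l2 _ _).trans_lt hrn
            rw [abs_lt] at g1 g2 g3 g4
            have y1 : y₁' = P (j + 1) := by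
              have i1 : (y₁' : ℝ) < P (j + 1) + 1 := by linarith
              have i2 : (P (j + 1) : ℝ) < y₁' + 1 := by linarith
              have i3 : y₁' < P (j + 1) + 1 := by exact_mod_cast i1
              have i4 : P (j + 1) < y₁' + 1 := by exact_mod_cast i2
              omega
            have y2 : y₂' = P (j + 2) := by
              have i1 : (y₂' : ℝ) < P (j + 2) + 1 := by linarith
              have i2 : (P (j + 2) : ℝ) < y₂' + 1 := by linarith
              have i3 : y₂' < P (j + 2) + 1 := by exact_mod_cast i1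
              have i4 : P (j + 2) < y₂' + 1 := by exact_mod_cast i2
              omega
            rw [y1, y2]
      refine ⟨?_, fun x' y₁' y₂' hx hle => ?_⟩
      · intro hc
        have := congrArg Prod.fst hc
        simp only at this
        omega
      · rw [abs_of_pos (show 0 < P n by omega)] at hx
        have hle' : N (x' * φ - y₁') (x' * φ ^ 2 - y₂') ≤ N (e φ n) (d φ n) := hle
        rcases lt_trichotomy x' 0 with h | h | h
        · right; right
          have := hpos (-x') (-y₁') (-y₂') (by omega) (by rw [abs_of_neg h] at hx; exact hx) (by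
            have e : N (((-x' : ℤ) : ℝ) * φ - ((-y₁' : ℤ) : ℝ))
                (((-x' : ℤ) : ℝ) * φ ^ 2 - ((-y₂' : ℤ) : ℝ)) =
                N (x' * φ - y₁') (x' * φ ^ 2 - y₂') := by
              rw [← hN.neg (x' * φ - y₁')]
              push_cast
              congr 1 <;> ring
            rw [e]; exact hle')
          simp only [Prod.mk.injEq] at this ⊢
          omega
        · left
          subst h
          have g1 : |((0 : ℤ) : ℝ) * φ - y₁'| < 1 / 4 := ((hN.l1 _ _).trans hle').trans_lt hrn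
          have g2 : |((0 : ℤ) : ℝ) * φ ^ 2 - y₂'| < 1 / 4 := ((hN.l2 _ _).trans hle').trans_lt hrn
          rw [abs_lt] at g1 g2
          push_cast at g1 g2
          have y1 : y₁' = 0 := by
            have i1 : (y₁' : ℝ) < 0 + 1 := by linarith
            have i2 : (0 : ℝ) < y₁' + 1 := by linarith
            have i3 : y₁' < 0 + 1 := by exact_mod_cast i1
            have i4 : 0 < y₁' + 1 := by exact_mod_cast i2
            omega
          have y2 : y₂' = 0 := by
            have i1 : (y₂' : ℝ) < 0 + 1 := by linarith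
            have i2 : (0 : ℝ) < y₂' + 1 := by linarith
            have i3 : y₂' < 0 + 1 := by exact_mod_cast i1
            have i4 : 0 < y₂' + 1 := by exact_mod_cast i2
            omega
          rw [y1, y2]
        · right; left
          exact hpos x' y₁' y₂' (by omega) (by rw [abs_of_pos h] at hx; exact hx) hle'
  · intro x y₁ y₂ hx hb
    set n₁ := max (n₀ + 10) n₂ with hn₁
    obtain ⟨j, hj0, hj1, hj2⟩ := window n₁ x hx
    refine ⟨j, hj0, ?_⟩
    have hn1 : n₀ + 10 ≤ n₁ := le_max_left _ _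
    rcases (hkey j (by omega)).2 x y₁ y₂ hj1 hj2 with h | ⟨k, hk, hkk⟩
    · exact h
    · have hp1 := P_pos (j - k)
      have hp2 := P_pos j
      have hmono := P_mono (Nat.sub_le j k)
      have := hb.2 (P (j - k)) (P (j - k + 1)) (P (j - k + 2)) (by
        rw [abs_of_pos (by omega), abs_of_pos (by omega)]; omega) hkk
      rcases this with h | h | h
      · exfalso
        have := congrArg Prod.fst h
        simp only at this
        omega
      · have h8 : P (j - k) = x := congrArg Prod.fst h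
        have h9 : ¬ (j - k < j) := by
          intro hc
          have := P_strict (show 5 ≤ j - k by omega) hc
          omega
        have h10 : j - k = j := by omega
        rw [h10] at h
        exact h.symm
      · exfalso
        have := congrArg Prod.fst h
        simp only at this
        omega

end Q247.PG
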