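import Pool.Agent.Q247.PG.Dens

/-! Growth of the heights. -/

set_option autoImplicit false
set_option maxHeartbeats 1000000

open Filter Topology Real

namespace Q247.PG

variable {φ : ℝ}

theorem count_gap (p : ℕ → Prop) [DecidablePred p] (a b : ℕ) (hab : a < b)
    (h : ∀ m, a < m → m < b → ¬ p m) : Nat.count p b = Nat.count p a + if p a then 1 else 0 := by
  obtain ⟨k, rfl⟩ := Nat.exists_eq_add_of_lt hab
  clear hab
  induction k with
  | zero => rw [add_zero, Nat.count_succ]
  | succ k ih =>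
    rw [show a + (k + 1) + 1 = (a + k + 1) + 1 by ring, Nat.count_succ,
      ih (fun m h1 h2 => h m h1 (by omega)), if_neg (h (a + k + 1) (by omega) (by omega)), add_zero]

theorem one_ok : NOK (fun a b : ℝ => |a| + |b|) where
  hom := fun t a b => by rw [abs_mul, abs_mul]; ring
  l1 := fun a b => by linarith [abs_nonneg b]
  l2 := fun a b => by linarith [abs_nonneg a]
  ub := fun a b => le_rfl

theorem log_P (hφ : φ ^ 3 = φ + 1) :
    Tendsto (fun n : ℕ => Real.log (P n) / n) atTop (𝓝 (Real.log φ)) := by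
  have p1 := phi_gt hφ
  have p2 := phi_lt hφ
  have s1 := phisq_gt hφ
  have s2 := phisq_lt hφ
  have hφ0 : 0 < φ := phi_pos hφ
  have he := N_tendsto one_ok hφ
  have hsm : ∀ᶠ n in atTop, |e φ n| + |d φ n| < 1 / 4 := he.eventually (gt_mem_nhds (by norm_num))
  have hlim1 : Tendsto (fun n : ℕ => (((n : ℝ) + 4) * Real.log φ - Real.log 6) / n) atTop
      (𝓝 (Real.log φ)) := by
    have h1 : Tendsto (fun n : ℕ => Real.log φ + (4 * Real.log φ - Real.log 6) / (n : ℝ)) atTop
        (𝓝 (Real.log φ + 0)) :=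
      tendsto_const_nhds.add (tendsto_const_div_atTop_nhds_zero_nat _)
    rw [add_zero] at h1
    refine h1.congr' ?_
    filter_upwards [eventually_gt_atTop 0] with n hn
    have : (n : ℝ) ≠ 0 := by positivity
    field_simp
    ring
  have hlim2 : Tendsto (fun n : ℕ => (((n : ℝ) + 4) * Real.log φ) / n) atTop
      (𝓝 (Real.log φ)) := by
    have h1 : Tendsto (fun n : ℕ => Real.log φ + (4 * Real.log φ) / (n : ℝ)) atTop
        (𝓝 (Real.log φ + 0)) :=
      tendsto_const_nhds.add (tendsto_const_div_atTop_nhds_zero_nat _)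
    rw [add_zero] at h1
    refine h1.congr' ?_
    filter_upwards [eventually_gt_atTop 0] with n hn
    have : (n : ℝ) ≠ 0 := by positivity
    field_simp
  have hboth : ∀ᶠ n : ℕ in atTop, φ ^ (n + 4) / 6 ≤ P n ∧ (P n : ℝ) ≤ φ ^ (n + 4) := by
    filter_upwards [hsm] with n hn
    have hL := L_pad hφ n
    rw [L_eq] at hL
    have ee1 : (P n : ℝ) * φ ^ 2 - P (n + 2) = d φ n := rfl
    have ee2 : (P n : ℝ) * φ - P (n + 1) = e φ n := rfl
    rw [ee1, ee2] at hL
    have hP : (1 : ℝ) ≤ P n := by exact_mod_cast P_pos n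
    have a1 : |φ * e φ n| ≤ 2 * |e φ n| := by
      rw [abs_mul, abs_of_pos hφ0]
      exact mul_le_mul_of_nonneg_right (by linarith) (abs_nonneg _)
    have a2 := abs_le.1 (le_refl |φ * e φ n|)
    have a3 := abs_le.1 (le_refl |d φ n|)
    have a4 := abs_nonneg (e φ n)
    have a5 := abs_nonneg (d φ n)
    rw [← hL]
    constructor
    · nlinarith
    · nlinarith
  refine tendsto_of_tendsto_of_tendsto_of_le_of_le' hlim1 hlim2 ?_ ?_
  · filter_upwards [hboth, eventually_gt_atTop 0] with n hn hn0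
    have hn0' : (0 : ℝ) < n := by exact_mod_cast hn0
    refine div_le_div_of_nonneg_right ?_ hn0'.le
    have h1 := Real.log_le_log (by positivity) hn.1
    rw [Real.log_div (by positivity) (by norm_num), Real.log_pow] at h1
    push_cast at h1
    exact h1
  · filter_upwards [hboth, eventually_gt_atTop 0] with n hn hn0
    have hn0' : (0 : ℝ) < n := by exact_mod_cast hn0
    refine div_le_div_of_nonneg_right ?_ hn0'.le
    have hP : (0 : ℝ) < P n := by exact_mod_cast (show 0 < P n by have := P_pos n; omega)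
    have h1 := Real.log_le_log hP hn.2
    rw [Real.log_pow] at h1
    push_cast at h1
    exact h1

theorem main_growth {N : ℝ → ℝ → ℝ} (hN : NOK N) (hφ : φ ^ 3 = φ + 1) (hD : Dom N φ) {w₂ : ℝ}
    (hC : Crit N φ w₂) :
    (heights N φ).Infinite ∧
    Tendsto (fun ν : ℕ => (Nat.nth (fun m => m ∈ heights N φ) ν : ℝ) ^ ((1 : ℝ) / ((ν : ℝ) + 1)))
      atTop (𝓝 (φ ^ (1 / rho φ w₂))) := by
  classical
  have p1 := phi_gt hφ
  have hφ0 : 0 < φ := phi_pos hφ
  obtain ⟨n₁, hn10, hpad, hall⟩ := pad_best_iff hN hφ hD hC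
  set p : ℕ → Prop := fun m => m ∈ heights N φ with hp
  set PN : ℕ → ℕ := fun n => (P n).toNat with hPN
  have hPNc : ∀ n, ((PN n : ℕ) : ℤ) = P n := fun n => Int.toNat_of_nonneg (by
    have := P_pos n; omega)
  set S : ℕ → Prop := fun n => e φ n / d φ n < w₂ with hS
  -- membership
  have hmem : ∀ m : ℕ, P n₁ ≤ (m : ℤ) → (p m ↔ ∃ n, n₁ ≤ n ∧ (m : ℤ) = P n ∧ S n) := by
    intro m hm
    constructor
    · rintro ⟨x, y₁, y₂, hb, hx⟩
      rcases le_total 0 x with h0 | h0
      · rw [abs_of_nonneg h0] at hx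
        obtain ⟨n, hn, hz⟩ := hall x y₁ y₂ (by omega) hb
        obtain ⟨rfl, rfl, rfl⟩ : x = P n ∧ y₁ = P (n + 1) ∧ y₂ = P (n + 2) := by simpa using hz
        exact ⟨n, hn, hx, (hpad n hn).1 hb⟩
      · rw [abs_of_nonpos h0] at hx
        have hb' := isBest_neg hN hb
        obtain ⟨n, hn, hz⟩ := hall (-x) (-y₁) (-y₂) (by omega) hb'
        obtain ⟨h1, h2, h3⟩ : -x = P n ∧ -y₁ = P (n + 1) ∧ -y₂ = P (n + 2) := by simpa using hz
        rw [h1, h2, h3] at hb'
        exact ⟨n, hn, hx.trans h1, (hpad n hn).1 hb'⟩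
    · rintro ⟨n, hn, hmn, hs⟩
      refine ⟨P n, P (n + 1), P (n + 2), (hpad n hn).2 hs, ?_⟩
      rw [abs_of_pos (by have := P_pos n; omega)]
      exact hmn
  have hstrict : ∀ {m n : ℕ}, 5 ≤ m → m < n → PN m < PN n := by
    intro m n hm h
    have h1 := P_strict hm h
    have h2 := hPNc m
    have h3 := hPNc n
    omega
  have hinj : ∀ {m n : ℕ}, n₁ ≤ m → n₁ ≤ n → P m = P n → m = n := by
    intro m n hm hn h
    rcases lt_trichotomy m n with h' | h' | h'
    · have := P_strict (show 5 ≤ m by omega) h'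
      omega
    · exact h'
    · have := P_strict (show 5 ≤ n by omega) h'
      omega
  have hpPN : ∀ n, n₁ ≤ n → (p (PN n) ↔ S n) := by
    intro n hn
    rw [hmem (PN n) (by rw [hPNc]; exact P_mono hn)]
    constructor
    · rintro ⟨m, hm, h1, h2⟩
      rw [hPNc] at h1
      rw [hinj hn hm h1]; exact h2
    · intro h
      exact ⟨n, hn, hPNc n, h⟩
  have hstep : ∀ n, n₁ ≤ n → Nat.count p (PN (n + 1)) =
      Nat.count p (PN n) + if S n then 1 else 0 := by
    intro n hn
    rw [count_gap p (PN n) (PN (n + 1)) (hstrict (by omega) (Nat.lt_succ_self n))]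
    · congr 1
      exact if_congr (hpPN n hn) rfl rfl
    · intro m h1 h2 hpm
      have e1 := hPNc n
      have e2 := hPNc (n + 1)
      have e3 := P_mono hn
      obtain ⟨j, hj, hj1, _⟩ := (hmem m (by omega)).1 hpm
      rcases Nat.lt_or_ge n j with h' | h'
      · have := P_mono (show n + 1 ≤ j by omega)
        omega
      · have := P_mono h'
        omega
  set D : ℕ → ℕ := fun M => ((Finset.range M).filter
      (fun n => e φ (n + 1) / d φ (n + 1) < w₂)).card with hDdef
  have hDstep : ∀ n, D (n + 1) = D n + if S (n + 1) then 1 else 0 := by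
    intro n
    rw [hDdef]
    simp only
    rw [Finset.range_add_one, Finset.filter_insert]
    split_ifs with h
    · rw [Finset.card_insert_of_notMem (by simp)]
    · rfl
  obtain ⟨K, hK⟩ : ∃ K : ℤ, ∀ n, n₁ ≤ n → (Nat.count p (PN (n + 1)) : ℤ) = D n + K := by
    refine ⟨(Nat.count p (PN (n₁ + 1)) : ℤ) - D n₁, fun n hn => ?_⟩
    obtain ⟨k, rfl⟩ := Nat.exists_eq_add_of_le hn
    clear hn
    induction k with
    | zero => simp
    | succ k ih =>
      rw [show n₁ + (k + 1) + 1 = (n₁ + k + 1) + 1 by ring, hstep (n₁ + k + 1) (by omega),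
        show n₁ + (k + 1) = (n₁ + k) + 1 by ring, hDstep (n₁ + k)]
      push_cast
      rw [ih]
      ring
  have hdens := density hφ w₂
  have hcount : Tendsto (fun n : ℕ => (Nat.count p (PN (n + 1)) : ℝ) / n) atTop
      (𝓝 (rho φ w₂)) := by
    have h1 : Tendsto (fun n : ℕ => (D n : ℝ) / n + (K : ℝ) / n) atTop (𝓝 (rho φ w₂ + 0)) :=
      hdens.add (tendsto_const_div_atTop_nhds_zero_nat _)
    rw [add_zero] at h1
    refine h1.congr' ?_
    filter_upwards [eventually_ge_atTop n₁] with n hn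
    have := hK n hn
    have h2 : (Nat.count p (PN (n + 1)) : ℝ) = D n + K := by exact_mod_cast this
    rw [h2, add_div]
  have hrho := rho_pos φ w₂
  have hinf : (heights N φ).Infinite := by
    intro hfin
    have hb : ∀ m, Nat.count p m ≤ hfin.toFinset.card := by
      intro m
      rw [Nat.count_eq_card_filter_range]
      apply Finset.card_le_card
      intro x hx
      rw [Finset.mem_filter] at hx
      rw [Set.Finite.mem_toFinset]
      exact hx.2
    have hz : Tendsto (fun n : ℕ => (Nat.count p (PN (n + 1)) : ℝ) / n) atTop (𝓝 0) := by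
      refine squeeze_zero (fun n => by positivity) (fun n => ?_)
        (tendsto_const_div_atTop_nhds_zero_nat (hfin.toFinset.card : ℝ))
      refine div_le_div_of_nonneg_right ?_ (Nat.cast_nonneg _)
      exact_mod_cast hb _
    have := tendsto_nhds_unique hz hcount
    linarith
  refine ⟨hinf, ?_⟩
  have hinf' : (Set.ofPred p).Infinite := hinf
  -- the comparison function
  set g : ℕ → ℝ := fun n => Real.log (P (n + 1)) / ((Nat.count p (PN (n + 1)) : ℝ) + 1) with hg
  have hglim : Tendsto g atTop (𝓝 (Real.log φ / rho φ w₂)) := by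
    have h1 : Tendsto (fun n : ℕ => Real.log (P (n + 1)) / ((n + 1 : ℕ) : ℝ)) atTop
        (𝓝 (Real.log φ)) := (tendsto_add_atTop_iff_nat 1).2 (log_P hφ)
    have h2 : Tendsto (fun n : ℕ => ((n + 1 : ℕ) : ℝ) / (n : ℝ)) atTop (𝓝 1) := by
      have h3 : Tendsto (fun n : ℕ => (1 : ℝ) + 1 / (n : ℝ)) atTop (𝓝 (1 + 0)) :=
        tendsto_const_nhds.add (tendsto_const_div_atTop_nhds_zero_nat _)
      rw [add_zero] at h3
      refine h3.congr' ?_
      filter_upwards [eventually_gt_atTop 0] with n hn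
      have : (n : ℝ) ≠ 0 := by positivity
      push_cast
      field_simp
    have h4 : Tendsto (fun n : ℕ => ((Nat.count p (PN (n + 1)) : ℝ) + 1) / n) atTop
        (𝓝 (rho φ w₂)) := by
      have h5 : Tendsto (fun n : ℕ => (Nat.count p (PN (n + 1)) : ℝ) / n + 1 / (n : ℝ)) atTop
          (𝓝 (rho φ w₂ + 0)) := hcount.add (tendsto_const_div_atTop_nhds_zero_nat _)
      rw [add_zero] at h5
      refine h5.congr fun n => ?_
      rw [add_div]
    have h6 := (h1.mul h2).div h4 hrho.ne'
    rw [mul_one] at h6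
    refine h6.congr' ?_
    filter_upwards [eventually_gt_atTop 0] with n hn
    have : (n : ℝ) ≠ 0 := by positivity
    have h7 : ((n + 1 : ℕ) : ℝ) ≠ 0 := by positivity
    have h8 : ((Nat.count p (PN (n + 1)) : ℝ) + 1) ≠ 0 := by positivity
    simp only [Pi.div_apply, hg]
    field_simp
  -- the indices
  have hex : ∀ ν, PN (n₁ + 1) ≤ ν → ∃ n, n₁ ≤ n ∧ Nat.nth p ν = PN (n + 1) := by
    intro ν hν
    have h1 : p (Nat.nth p ν) := Nat.nth_mem_of_infinite hinf' ν
    have h2 : ν ≤ Nat.nth p ν := (Nat.nth_strictMono hinf').le_apply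
    have h3 := hPNc (n₁ + 1)
    have h4 := P_strict (show 5 ≤ n₁ by omega) (Nat.lt_succ_self n₁)
    obtain ⟨j, hj, hj1, _⟩ := (hmem (Nat.nth p ν) (by rw [Nat.succ_eq_add_one] at h4; omega)).1 h1
    have h5 : n₁ < j := by
      by_contra hc
      have : j = n₁ := by omega
      rw [this] at hj1
      rw [Nat.succ_eq_add_one] at h4
      omega
    refine ⟨j - 1, by omega, ?_⟩
    rw [Nat.sub_add_cancel (by omega)]
    have := hPNc j
    omega
  choose! J hJ1 hJ2 using hex
  have hJtop : Tendsto J atTop atTop := by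
    rw [tendsto_atTop]
    intro B
    filter_upwards [eventually_ge_atTop (PN (n₁ + 1)), eventually_gt_atTop (PN (B + n₁ + 6))]
      with ν h1 h2
    by_contra hc
    push Not at hc
    have h3 := hJ2 ν h1
    have h4 : ν ≤ Nat.nth p ν := (Nat.nth_strictMono hinf').le_apply
    have h5 : PN (J ν + 1) ≤ PN (B + n₁ + 6) := by
      have := P_mono (show J ν + 1 ≤ B + n₁ + 6 by omega)
      have e1 := hPNc (J ν + 1)
      have e2 := hPNc (B + n₁ + 6)
      omega
    omega
  have hfin := hglim.comp hJtop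
  have hexp := (Real.continuous_exp.tendsto _).comp hfin
  have htarget : Real.exp (Real.log φ / rho φ w₂) = φ ^ (1 / rho φ w₂) := by
    rw [Real.rpow_def_of_pos hφ0]
    congr 1
    ring
  rw [htarget] at hexp
  refine hexp.congr' ?_
  filter_upwards [eventually_ge_atTop (PN (n₁ + 1))] with ν hν
  have h1 := hJ2 ν hν
  have h2 : Nat.count p (PN (J ν + 1)) = ν := by
    rw [← h1]; exact Nat.count_nth_of_infinite hinf' ν
  have h3 : (0 : ℝ) < (Nat.nth p ν : ℝ) := by
    rw [h1]
    have := P_pos (J ν + 1)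
    have h4 := hPNc (J ν + 1)
    exact_mod_cast (show 0 < PN (J ν + 1) by omega)
  have h5 : (P (J ν + 1) : ℝ) = (Nat.nth p ν : ℝ) := by
    rw [h1]
    have := hPNc (J ν + 1)
    exact_mod_cast this.symm
  simp only [Function.comp_apply, hg]
  rw [h2, h5, Real.rpow_def_of_pos h3]
  congr 1
  ring

end Q247.PG
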