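import Pool.Agent.Q247.PG.Trig
import Pool.Agent.Q247.PG.Best

/-! The density of the indices of best approximations. -/

set_option autoImplicit false
set_option maxHeartbeats 1000000

open Filter Topology Real

namespace Q247.PG

open Pool.Agent.H534R3.UDist

variable {φ : ℝ}

/-- the density belonging to the threshold `w` -/
noncomputable def rho (φ w : ℝ) : ℝ :=
  1 / 2 + Real.arctan ((2 * w - φ ^ 2) / Real.sqrt (3 * φ - φ ^ 2)) / π

theorem rho_pos (φ w : ℝ) : 0 < rho φ w := by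
  rw [rho]
  have h := Real.neg_pi_div_two_lt_arctan ((2 * w - φ ^ 2) / Real.sqrt (3 * φ - φ ^ 2))
  have h1 : -(1 / 2) < Real.arctan ((2 * w - φ ^ 2) / Real.sqrt (3 * φ - φ ^ 2)) / π := by
    rw [lt_div_iff₀ Real.pi_pos]; linarith
  linarith

theorem rho_lt_one (φ w : ℝ) : rho φ w < 1 := by
  rw [rho]
  have h := Real.arctan_lt_pi_div_two ((2 * w - φ ^ 2) / Real.sqrt (3 * φ - φ ^ 2))
  have h1 : Real.arctan ((2 * w - φ ^ 2) / Real.sqrt (3 * φ - φ ^ 2)) / π < 1 / 2 := by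
    rw [div_lt_iff₀ Real.pi_pos]; linarith
  linarith

theorem slope_lt_iff (hφ : φ ^ 3 = φ + 1) {A α : ℝ}
    (hA : ∀ n : ℕ, e φ n * Real.sqrt φ ^ n = A * Real.cos (n * th φ + α)) (w : ℝ) (n : ℕ) :
    e φ (n + 1) / d φ (n + 1) < w ↔
      Int.fract ((n : ℝ) * (th φ / π) + (α / π + 1 / 2)) < rho φ w := by
  have p1 := phi_gt hφ
  have p2 := phi_lt hφ
  have hs0 : 0 < Real.sqrt φ := Real.sqrt_pos.2 (phi_pos hφ)
  have hs := sqrt_sq hφ
  have hs' : Real.sqrt φ * Real.sqrt φ = φ := by rw [← sq, hs]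
  have hsin := sin_pos hφ
  have hsth := sin_th hφ
  have hR : 0 < Real.sqrt (3 * φ - φ ^ 2) := Real.sqrt_pos.2 (by nlinarith)
  set τ : ℝ := n * th φ + α with hτ
  have hn := hA n
  have hn1 := hA (n + 1)
  have e1 : (((n + 1 : ℕ) : ℝ) * th φ + α) = τ + th φ := by rw [hτ]; push_cast; ring
  rw [e1, Real.cos_add] at hn1
  rw [← hτ] at hn
  have hsn : 0 < Real.sqrt φ ^ n := pow_pos hs0 n
  have hAc : A * Real.cos τ ≠ 0 := by
    rw [← hn]; exact mul_ne_zero (e_ne hφ n) hsn.ne'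
  have hA0 : A ≠ 0 := left_ne_zero_of_mul hAc
  have hc0 : Real.cos τ ≠ 0 := right_ne_zero_of_mul hAc
  -- the slope
  have hslope : e φ (n + 1) / d φ (n + 1) =
      Real.sqrt φ * Real.sin (th φ) * Real.tan τ + φ ^ 2 / 2 := by
    have hen : e φ n = A * Real.cos τ / Real.sqrt φ ^ n := by
      rw [← hn]; field_simp
    have hen1 : e φ (n + 1) = A * (Real.cos τ * Real.cos (th φ) - Real.sin τ * Real.sin (th φ)) /
        (Real.sqrt φ ^ n * Real.sqrt φ) := by
      rw [← pow_succ, ← hn1]; field_simp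
    rw [d_succ hφ, hen, hen1, Real.tan_eq_sin_div_cos, cos_th hφ]
    have h6 : (φ ^ 2 - 1) * φ = 1 := by linear_combination hφ
    have h7 : (φ ^ 2 - 1) ≠ 0 := left_ne_zero_of_mul (h6 ▸ one_ne_zero)
    have h8 : (φ ^ 2 - 1) = φ⁻¹ := eq_inv_of_mul_eq_one_left h6
    rw [h8]
    have hφ0 : φ ≠ 0 := by linarith
    field_simp
    generalize Real.sin τ = s
    generalize Real.cos τ = c
    generalize Real.sin (th φ) = t
    generalize Real.sqrt φ = r at *
    grind
  -- the tangent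
  set t₂ : ℝ := (2 * w - φ ^ 2) / Real.sqrt (3 * φ - φ ^ 2) with ht₂
  have hiff1 : e φ (n + 1) / d φ (n + 1) < w ↔ Real.tan τ < t₂ := by
    rw [hslope, hsth, ht₂, lt_div_iff₀ hR]
    constructor <;> intro h <;> nlinarith
  rw [hiff1]
  set X : ℝ := (n : ℝ) * (th φ / π) + (α / π + 1 / 2) with hX
  set f : ℝ := Int.fract X with hf
  have hπ := Real.pi_pos
  have hXτ : τ = π * (X - 1 / 2) := by rw [hX, hτ]; field_simp; ring
  have hfr : X = ⌊X⌋ + f := (Int.floor_add_fract X).symm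
  have hf0 : 0 ≤ f := Int.fract_nonneg X
  have hf1 : f < 1 := Int.fract_lt_one X
  have hτ2 : τ = π * (f - 1 / 2) + ⌊X⌋ * π := by
    rw [hXτ]
    nth_rewrite 1 [hfr]
    ring
  have hfne : f ≠ 0 := by
    intro h
    apply hc0
    rw [hτ2, h, Real.cos_add_int_mul_pi]
    rw [show π * (0 - 1 / 2) = -(π / 2) by ring, Real.cos_neg, Real.cos_pi_div_two, mul_zero]
  have hf0' : 0 < f := lt_of_le_of_ne hf0 (Ne.symm hfne)
  have htan : Real.tan τ = Real.tan (π * (f - 1 / 2)) := by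
    rw [hτ2, Real.tan_add_int_mul_pi]
  have h1 : -(π / 2) < π * (f - 1 / 2) := by nlinarith
  have h2 : π * (f - 1 / 2) < π / 2 := by nlinarith
  have harc : Real.arctan (Real.tan (π * (f - 1 / 2))) = π * (f - 1 / 2) :=
    Real.arctan_tan h1 h2
  rw [htan, rho, ← ht₂]
  constructor
  · intro h
    have := Real.arctan_strictMono h
    rw [harc] at this
    have h3 : f - 1 / 2 < Real.arctan t₂ / π := by rw [lt_div_iff₀ hπ]; linarith
    linarith
  · intro h
    have h3 : f - 1 / 2 < Real.arctan t₂ / π := by linarith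
    rw [lt_div_iff₀ hπ] at h3
    rw [← Real.arctan_lt_arctan_iff, harc]
    linarith

theorem density (hφ : φ ^ 3 = φ + 1) (w : ℝ) :
    Tendsto (fun N : ℕ => (((Finset.range N).filter
      (fun n => e φ (n + 1) / d φ (n + 1) < w)).card : ℝ) / (N : ℝ)) atTop (𝓝 (rho φ w)) := by
  obtain ⟨A, α, hA⟩ := exists_trig hφ
  have h := weyl_rot hφ (α / π + 1 / 2) 0 (rho φ w) le_rfl (rho_pos φ w).le (rho_lt_one φ w).le
  rw [sub_zero] at h
  refine h.congr fun N => ?_
  congr 2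
  congr 1
  ext n
  simp only [Finset.mem_filter]
  rw [slope_lt_iff hφ hA w n]
  constructor
  · rintro ⟨h1, _, h3⟩; exact ⟨h1, h3⟩
  · rintro ⟨h1, h3⟩; exact ⟨h1, Int.fract_nonneg _, h3⟩

end Q247.PG
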