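import Pool.Agent.Q247.PG.Basic

/-! Enumeration of the small elements of `ℤ[φ]`. -/

set_option autoImplicit false
set_option maxHeartbeats 1000000

namespace Q247.PG

variable {φ : ℝ}

/-- `|a + b β + c β²|²` for the complex conjugate `β` of `φ`. -/
def q (φ a b c : ℝ) : ℝ :=
  a ^ 2 + (φ ^ 2 - 1) * b ^ 2 + (φ ^ 2 - 1) ^ 2 * c ^ 2 - φ * a * b + (2 - φ ^ 2) * a * c - b * c

theorem q0 (hφ : φ ^ 3 = φ + 1) (a b c : ℝ) :
    ((3 * a + 2 * c) - (a + b * φ + c * φ ^ 2)) ^ 2 =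
      4 * q φ a b c - (4 * (φ ^ 2 - 1) - φ ^ 2) * (b - c * φ) ^ 2 := by
  rw [q]; grind

theorem q1 (hφ : φ ^ 3 = φ + 1) (a b c : ℝ) :
    ((2 * b + 3 * c) - (a + b * φ + c * φ ^ 2) * φ) ^ 2 =
      4 * (φ ^ 2 - 1) * q φ a b c - (4 * (φ ^ 2 - 1) - φ ^ 2) * (a + c - b * φ) ^ 2 := by
  rw [q]; grind

theorem q2 (hφ : φ ^ 3 = φ + 1) (a b c : ℝ) :
    ((2 * a + 3 * b + 2 * c) - (a + b * φ + c * φ ^ 2) * φ ^ 2) ^ 2 =
      4 * (φ ^ 2 - 1) ^ 2 * q φ a b c -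
      (4 * (φ ^ 2 - 1) - φ ^ 2) * (b + c - (a + c) * φ) ^ 2 := by
  rw [q]; grind

theorem phisq_gt (hφ : φ ^ 3 = φ + 1) : 1.7547 < φ ^ 2 := by
  nlinarith [phi_gt hφ, phi_lt hφ]

theorem phisq_lt (hφ : φ ^ 3 = φ + 1) : φ ^ 2 < 1.7552 := by
  nlinarith [phi_gt hφ, phi_lt hφ]

theorem q_nonneg (hφ : φ ^ 3 = φ + 1) (a b c : ℝ) : 0 ≤ q φ a b c := by
  have h := q0 hφ a b c
  have k0 : 0 ≤ (4 * (φ ^ 2 - 1) - φ ^ 2) := by linarith [phisq_gt hφ]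
  have m0 := mul_nonneg k0 (sq_nonneg ((b : ℝ) - c * φ))
  have := sq_nonneg ((3 * a + 2 * c) - (a + b * φ + c * φ ^ 2))
  linarith

theorem bd0 (hφ : φ ^ 3 = φ + 1) (a b c : ℝ) (h3 : q φ a b c < 7.35) :
    |(3 * a + 2 * c) - (a + b * φ + c * φ ^ 2)| < 5.43 := by
  refine abs_lt_of_sq_lt_sq ?_ (by norm_num)
  rw [q0 hφ]
  have k0 : 0 ≤ (4 * (φ ^ 2 - 1) - φ ^ 2) := by linarith [phisq_gt hφ]
  have m0 := mul_nonneg k0 (sq_nonneg ((b : ℝ) - c * φ))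
  norm_num at h3 ⊢
  linarith

theorem bd1 (hφ : φ ^ 3 = φ + 1) (a b c : ℝ) (h3 : q φ a b c < 7.35) :
    |(2 * b + 3 * c) - (a + b * φ + c * φ ^ 2) * φ| < 4.72 := by
  refine abs_lt_of_sq_lt_sq ?_ (by norm_num)
  rw [q1 hφ]
  have k0 : 0 ≤ (4 * (φ ^ 2 - 1) - φ ^ 2) := by linarith [phisq_gt hφ]
  have m0 := mul_nonneg k0 (sq_nonneg ((a : ℝ) + c - b * φ))
  have := mul_le_mul (show φ ^ 2 - 1 ≤ 0.7552 by linarith [phisq_lt hφ]) h3.le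
    (q_nonneg hφ a b c) (by norm_num)
  norm_num at this ⊢
  linarith

theorem bd2 (hφ : φ ^ 3 = φ + 1) (a b c : ℝ) (h3 : q φ a b c < 7.35) :
    |(2 * a + 3 * b + 2 * c) - (a + b * φ + c * φ ^ 2) * φ ^ 2| < 4.12 := by
  refine abs_lt_of_sq_lt_sq ?_ (by norm_num)
  rw [q2 hφ]
  have k0 : 0 ≤ (4 * (φ ^ 2 - 1) - φ ^ 2) := by linarith [phisq_gt hφ]
  have m0 := mul_nonneg k0 (sq_nonneg ((b : ℝ) + c - (a + c) * φ))
  have h5 : (φ ^ 2 - 1) ^ 2 ≤ 0.571 := by nlinarith [phisq_lt hφ, phisq_gt hφ]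
  have := mul_le_mul h5 h3.le (q_nonneg hφ a b c) (by norm_num)
  norm_num at this ⊢
  linarith

theorem int_bd {k : ℤ} {x D L : ℝ} (hx : (k : ℝ) = x) (h : |x - D| < L) (h0 : 0 ≤ D)
    (h1 : D + L < 7) : -6 ≤ k ∧ k ≤ 6 := by
  rw [abs_lt] at h
  constructor
  · have : (-7 : ℝ) < (k : ℝ) := by rw [hx]; linarith
    have : (-7 : ℤ) < k := by exact_mod_cast this
    omega
  · have : (k : ℝ) < 7 := by rw [hx]; linarith
    have : k < (7 : ℤ) := by exact_mod_cast this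
    omega

theorem enum0 (hφ : φ ^ 3 = φ + 1) (a b c : ℤ) (h1 : 0.999 < a + b * φ + c * φ ^ 2)
    (h2 : a + b * φ + c * φ ^ 2 < φ + 0.001) (h3 : q φ a b c < 7.35) :
    (-6 ≤ 3 * a + 2 * c ∧ 3 * a + 2 * c ≤ 6) ∧ (-6 ≤ 2 * b + 3 * c ∧ 2 * b + 3 * c ≤ 6) ∧
      (-6 ≤ 2 * a + 3 * b + 2 * c ∧ 2 * a + 3 * b + 2 * c ≤ 6) := by
  have p1 := phi_gt hφ
  have p2 := phi_lt hφ
  have s1 := phisq_gt hφ
  have s2 := phisq_lt hφ
  have g0 := bd0 hφ a b c h3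
  have g1 := bd1 hφ a b c h3
  have g2 := bd2 hφ a b c h3
  generalize (a : ℝ) + b * φ + c * φ ^ 2 = D at *
  refine ⟨int_bd (by push_cast; ring) g0 (by linarith) (by linarith),
    int_bd (by push_cast; ring) g1 (by nlinarith) (by nlinarith),
    int_bd (by push_cast; ring) g2 (by nlinarith) (by nlinarith)⟩

theorem q_lin (hφ : φ ^ 3 = φ + 1) (a b c : ℝ) : q φ a b c =
    a ^ 2 - b ^ 2 + c ^ 2 + 2 * a * c - b * c + φ * (c ^ 2 - a * b) +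
      φ ^ 2 * (b ^ 2 - c ^ 2 - a * c) := by
  rw [q]; grind

theorem enum (hφ : φ ^ 3 = φ + 1) (a b c : ℤ) (h1 : 0.999 < a + b * φ + c * φ ^ 2)
    (h2 : a + b * φ + c * φ ^ 2 < φ + 0.001) (h3 : q φ a b c < 7.35) :
    (a, b, c) = (1, 0, 0) ∨ (a, b, c) = (0, 1, 0) ∨ (a, b, c) = (-2, 1, 1) ∨
      (a, b, c) = (-1, -1, 2) ∨ (a, b, c) = (2, 2, -2) := by
  obtain ⟨⟨e1, e2⟩, ⟨e3, e4⟩, ⟨e5, e6⟩⟩ := enum0 hφ a b c h1 h2 h3
  have p1 := phi_gt hφ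
  have p2 := phi_lt hφ
  have s1 := phisq_gt hφ
  have s2 := phisq_lt hφ
  rw [q_lin hφ] at h3
  generalize φ ^ 2 = w at *
  have hc1 : -4 ≤ c := by omega
  have hc2 : c ≤ 4 := by omega
  clear hφ
  interval_cases c <;>
  · have ha1 : -4 ≤ a := by omega
    have ha2 : a ≤ 4 := by omega
    interval_cases a <;> first
      | (exfalso; omega)
      | (have hb1 : -9 ≤ b := by omega
         have hb2 : b ≤ 9 := by omega
         interval_cases b <;> first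
          | (exfalso; omega)
          | (exfalso; push_cast at h1 h2 h3; linarith)
          | simp)

end Q247.PG
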