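import Pool.Agent.Q247.PG.Sup

/-! The Euclidean norm. -/

set_option autoImplicit false
set_option maxHeartbeats 1000000

namespace Q247.PG

variable {φ : ℝ}

/-- the Euclidean norm on `ℝ²` -/
noncomputable def eucN (a b : ℝ) : ℝ := Real.sqrt (a ^ 2 + b ^ 2)

theorem eucN_sq (a b : ℝ) : eucN a b ^ 2 = a ^ 2 + b ^ 2 := Real.sq_sqrt (by positivity)

theorem eucN_nonneg (a b : ℝ) : 0 ≤ eucN a b := Real.sqrt_nonneg _

theorem eucN_ok : NOK eucN where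
  hom := fun t a b => by
    rw [eucN, eucN, show (t * a) ^ 2 + (t * b) ^ 2 = t ^ 2 * (a ^ 2 + b ^ 2) by ring,
      Real.sqrt_mul (sq_nonneg t), Real.sqrt_sq_eq_abs]
  l1 := fun a b => by
    refine abs_le_of_sq_le_sq' ?_ (eucN_nonneg _ _) |> abs_le.2
    rw [eucN_sq]; nlinarith [sq_nonneg b]
  l2 := fun a b => by
    refine abs_le_of_sq_le_sq' ?_ (eucN_nonneg _ _) |> abs_le.2
    rw [eucN_sq]; nlinarith [sq_nonneg a]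
  ub := fun a b => by
    refine Real.sqrt_le_iff.2 ⟨by positivity, ?_⟩
    have := mul_nonneg (abs_nonneg a) (abs_nonneg b)
    nlinarith [sq_abs a, sq_abs b]

theorem eucN_le {a b c d : ℝ} (h : a ^ 2 + b ^ 2 ≤ c ^ 2 + d ^ 2) : eucN a b ≤ eucN c d :=
  Real.sqrt_le_sqrt h

theorem eucN_lt {a b c d : ℝ} (h : a ^ 2 + b ^ 2 < c ^ 2 + d ^ 2) : eucN a b < eucN c d :=
  Real.sqrt_lt_sqrt (by positivity) h

theorem euc_Q_le (hφ : φ ^ 3 = φ + 1) (a b : ℝ) : Q φ a b ≤ 2.056 * (a ^ 2 + b ^ 2) := by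
  have p1 := phi_gt hφ
  have p2 := phi_lt hφ
  have s1 := phisq_gt hφ
  have s2 := phisq_lt hφ
  rw [Q]
  have h1 : -(φ ^ 2 * a * b) ≤ 1.056 * a ^ 2 + 0.731 * b ^ 2 := by
    have h2 : 0 ≤ (1.056 * a + φ ^ 2 / 2 * b) ^ 2 := sq_nonneg _
    have h3 : (φ ^ 2) ^ 2 ≤ 1.7552 ^ 2 := by nlinarith
    have h4 : (φ ^ 2 / 2 * b) ^ 2 ≤ 0.771 * b ^ 2 := by
      have : (φ ^ 2 / 2 * b) ^ 2 = (φ ^ 2) ^ 2 / 4 * b ^ 2 := by ring
      rw [this]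
      refine mul_le_mul_of_nonneg_right ?_ (sq_nonneg b)
      norm_num at *
      linarith
    norm_num at *
    nlinarith
  have h5 : φ * b ^ 2 ≤ 1.325 * b ^ 2 := mul_le_mul_of_nonneg_right (by norm_num at *; linarith) (sq_nonneg b)
  norm_num at *
  linarith

theorem euc_small (hφ : φ ^ 3 = φ + 1) (w : ℝ) :
    ∃ k : ℕ, k ≤ 3 ∧ eucN (Ru φ k w 1) (Rv φ k w 1) ^ 2 ≤ 2 * Q φ w 1 := by
  have p1 := phi_gt hφ
  have p2 := phi_lt hφ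
  have s1 := phisq_gt hφ
  have s2 := phisq_lt hφ
  rcases le_total w 0.5 with h | h
  · refine ⟨0, by norm_num, ?_⟩
    rw [eucN_sq, Ru, Rv, Q]
    nlinarith
  have hQ : w ^ 2 - 1.7552 * w + 1.3247 ≤ Q φ w 1 := by rw [Q]; nlinarith
  rcases le_total w 1 with h' | h'
  · refine ⟨3, le_rfl, ?_⟩
    rw [eucN_sq, Ru3 hφ, Rv3 hφ, mul_pow]
    have : (φ + 1) ^ 2 ≤ 5.405 := by nlinarith
    have t1 := mul_le_mul_of_nonneg_right this (sq_nonneg (w - 1))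
    have l0 : -0.5 ≤ φ ^ 2 * w - (φ ^ 2 - 1) * 1 := by nlinarith
    have l1 : φ ^ 2 * w - (φ ^ 2 - 1) * 1 ≤ 1.7552 * w - 0.7547 := by nlinarith
    have l2 : 1.7547 * w - 0.7552 ≤ φ ^ 2 * w - (φ ^ 2 - 1) * 1 := by nlinarith
    have t2 : (φ ^ 2 * w - (φ ^ 2 - 1) * 1) ^ 2 ≤ (1.7552 * w - 0.7547) ^ 2 := by nlinarith
    nlinarith
  rcases le_total w 2 with h'' | h''
  · refine ⟨2, by norm_num, ?_⟩
    rw [eucN_sq, Ru2 hφ, Rv2 hφ]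
    have l1 : (φ + 1) * 1 - φ * w ≤ 2.3249 - 1.3247 * w := by nlinarith
    have l2 : 2.3247 - 1.3249 * w ≤ (φ + 1) * 1 - φ * w := by nlinarith
    have l4 : 0 ≤ φ ^ 2 * (w - 1) := by nlinarith
    have l5 : φ ^ 2 * (w - 1) ≤ 1.7552 * (w - 1) := by nlinarith
    have l6 := pow_le_pow_left₀ l4 l5 2
    have l7 : ((φ + 1) * 1 - φ * w) ^ 2 ≤ (2.3249 - 1.3247 * w) ^ 2 + 0.001 := by nlinarith
    nlinarith
  · refine ⟨1, by norm_num, ?_⟩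
    rw [eucN_sq, Ru1, Rv1]
    have l1 : w - φ ^ 2 * 1 ≤ w - 1.7547 := by nlinarith
    have l0 : 0 ≤ w - φ ^ 2 * 1 := by nlinarith
    have l2 := pow_le_pow_left₀ l0 l1 2
    nlinarith

/-- the Euclidean threshold -/
noncomputable def wE (φ : ℝ) : ℝ :=
  (φ ^ 2 + 3 * φ + 1 - Real.sqrt (φ ^ 2 + 4 * φ + 1)) / (2 * φ ^ 2 + 3 * φ)

theorem wE_lt (hφ : φ ^ 3 = φ + 1) : wE φ < 0.5205 := by
  have p1 := phi_gt hφ
  have p2 := phi_lt hφ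
  have s1 := phisq_gt hφ
  have s2 := phisq_lt hφ
  have h1 : 2.8375 < Real.sqrt (φ ^ 2 + 4 * φ + 1) := by
    rw [Real.lt_sqrt (by norm_num)]
    norm_num at *
    linarith
  rw [wE, div_lt_iff₀ (by nlinarith)]
  norm_num at *
  linarith

theorem wE_gt (hφ : φ ^ 3 = φ + 1) : 0.5195 < wE φ := by
  have p1 := phi_gt hφ
  have p2 := phi_lt hφ
  have s1 := phisq_gt hφ
  have s2 := phisq_lt hφ
  have h1 : Real.sqrt (φ ^ 2 + 4 * φ + 1) < 2.8385 := by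
    rw [Real.sqrt_lt' (by norm_num)]
    norm_num at *
    linarith
  rw [wE, lt_div_iff₀ (by nlinarith)]
  norm_num at *
  linarith

theorem wE_pos_side (hφ : φ ^ 3 = φ + 1) (w : ℝ) (h : w < wE φ) :
    0 < (2 * φ ^ 2 + 3 * φ) * w ^ 2 - 2 * (φ ^ 2 + 3 * φ + 1) * w + (3 * φ + 1) := by
  have p1 := phi_gt hφ
  have hA : 0 < 2 * φ ^ 2 + 3 * φ := by nlinarith
  have hr : Real.sqrt (φ ^ 2 + 4 * φ + 1) ^ 2 = φ ^ 2 + 4 * φ + 1 := Real.sq_sqrt (by nlinarith)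
  have hr0 := Real.sqrt_nonneg (φ ^ 2 + 4 * φ + 1)
  rw [wE, lt_div_iff₀ hA] at h
  set r := Real.sqrt (φ ^ 2 + 4 * φ + 1)
  have h1 : r < φ ^ 2 + 3 * φ + 1 - w * (2 * φ ^ 2 + 3 * φ) := by linarith
  have h2 := pow_lt_pow_left₀ h1 hr0 two_ne_zero
  rw [hr] at h2
  have h3 : 0 < (2 * φ ^ 2 + 3 * φ) * ((2 * φ ^ 2 + 3 * φ) * w ^ 2 -
      2 * (φ ^ 2 + 3 * φ + 1) * w + (3 * φ + 1)) := by
    have : (2 * φ ^ 2 + 3 * φ) * ((2 * φ ^ 2 + 3 * φ) * w ^ 2 -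
      2 * (φ ^ 2 + 3 * φ + 1) * w + (3 * φ + 1)) =
      (φ ^ 2 + 3 * φ + 1 - w * (2 * φ ^ 2 + 3 * φ)) ^ 2 - (φ ^ 2 + 4 * φ + 1) := by grind
    rw [this]; linarith
  exact (mul_pos_iff_of_pos_left hA).1 h3

theorem wE_neg_side (hφ : φ ^ 3 = φ + 1) (w : ℝ) (h : wE φ ≤ w) (h' : w ≤ 1.2) :
    (2 * φ ^ 2 + 3 * φ) * w ^ 2 - 2 * (φ ^ 2 + 3 * φ + 1) * w + (3 * φ + 1) ≤ 0 := by
  have p1 := phi_gt hφ
  have p2 := phi_lt hφ
  have s1 := phisq_gt hφ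
  have s2 := phisq_lt hφ
  have hA : 0 < 2 * φ ^ 2 + 3 * φ := by nlinarith
  have hr : Real.sqrt (φ ^ 2 + 4 * φ + 1) ^ 2 = φ ^ 2 + 4 * φ + 1 := Real.sq_sqrt (by nlinarith)
  have hr0 := Real.sqrt_nonneg (φ ^ 2 + 4 * φ + 1)
  have hr1 : 2.8375 < Real.sqrt (φ ^ 2 + 4 * φ + 1) := by
    rw [Real.lt_sqrt (by norm_num)]
    norm_num at *
    linarith
  rw [wE, div_le_iff₀ hA] at h
  set r := Real.sqrt (φ ^ 2 + 4 * φ + 1)
  have h1 : φ ^ 2 + 3 * φ + 1 - w * (2 * φ ^ 2 + 3 * φ) ≤ r := by linarith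
  have h1' : -r ≤ φ ^ 2 + 3 * φ + 1 - w * (2 * φ ^ 2 + 3 * φ) := by
    have : w * (2 * φ ^ 2 + 3 * φ) ≤ 1.2 * (2 * φ ^ 2 + 3 * φ) :=
      mul_le_mul_of_nonneg_right h' hA.le
    norm_num at *
    linarith
  have h2 : (φ ^ 2 + 3 * φ + 1 - w * (2 * φ ^ 2 + 3 * φ)) ^ 2 ≤ r ^ 2 := sq_le_sq' h1' h1
  rw [hr] at h2
  have h3 : (2 * φ ^ 2 + 3 * φ) * ((2 * φ ^ 2 + 3 * φ) * w ^ 2 -
      2 * (φ ^ 2 + 3 * φ + 1) * w + (3 * φ + 1)) ≤ 0 := by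
    have : (2 * φ ^ 2 + 3 * φ) * ((2 * φ ^ 2 + 3 * φ) * w ^ 2 -
      2 * (φ ^ 2 + 3 * φ + 1) * w + (3 * φ + 1)) =
      (φ ^ 2 + 3 * φ + 1 - w * (2 * φ ^ 2 + 3 * φ)) ^ 2 - (φ ^ 2 + 4 * φ + 1) := by grind
    rw [this]; linarith
  by_contra hc
  push Not at hc
  exact absurd (mul_pos hA hc) (not_lt.2 h3)

theorem euc_best (hφ : φ ^ 3 = φ + 1) (w : ℝ) (hw : w < wE φ) (k : ℕ)
    (hk : 1 ≤ k) : eucN w 1 < eucN (Ru φ k w 1) (Rv φ k w 1) := by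
  have p1 := phi_gt hφ
  have p2 := phi_lt hφ
  have s1 := phisq_gt hφ
  have s2 := phisq_lt hφ
  have hw2 := wE_lt hφ
  have hw3 : w < 0.5205 := hw.trans hw2
  by_cases h5 : 5 ≤ k
  · have hQ := euc_Q_le hφ (Ru φ k w 1) (Rv φ k w 1)
    rw [Q_back hφ] at hQ
    have h1 : φ ^ 5 ≤ φ ^ k := pow_le_pow_right₀ (by linarith) h5
    have h2 : φ ^ 5 = φ ^ 2 + φ + 1 := by grind
    have hQ0 : 0 < Q φ w 1 := Q_pos hφ (Or.inr one_ne_zero)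
    have h3 : 4.079 * Q φ w 1 ≤ φ ^ k * Q φ w 1 := by
      refine mul_le_mul_of_nonneg_right ?_ hQ0.le
      norm_num at *
      linarith
    have h4 : 2.056 * (w ^ 2 + 1) < 4.079 * Q φ w 1 := by
      rw [Q]; nlinarith
    apply eucN_lt
    norm_num at *
    linarith
  · apply eucN_lt
    interval_cases k
    · rw [Ru1, Rv1]
      have : φ ^ 4 = φ ^ 2 + φ := by grind
      nlinarith
    · rw [Ru2 hφ, Rv2 hφ]
      have e1 : ((φ + 1) * 1 - φ * w) ^ 2 + (φ ^ 2 * (1 - w)) ^ 2 - (w ^ 2 + 1 ^ 2) =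
        (2 * φ ^ 2 + φ - 1) * w ^ 2 - 2 * (2 * φ ^ 2 + 2 * φ) * w +
          (2 * φ ^ 2 + 3 * φ) := by grind
      have : 0 < (2 * φ ^ 2 + φ - 1) * w ^ 2 - 2 * (2 * φ ^ 2 + 2 * φ) * w +
          (2 * φ ^ 2 + 3 * φ) := by nlinarith
      linarith
    · rw [Ru3 hφ, Rv3 hφ]
      have e1 : ((φ + 1) * (w - 1)) ^ 2 + (φ ^ 2 * w - (φ ^ 2 - 1) * 1) ^ 2 - (w ^ 2 + 1 ^ 2) =
        (2 * φ ^ 2 + 3 * φ) * w ^ 2 - 2 * (φ ^ 2 + 3 * φ + 1) * w + (3 * φ + 1) := by grind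
      have := wE_pos_side hφ w hw
      linarith
    · rw [Ru4 hφ, Rv4 hφ]
      have e1 : (1 - (φ + 1) * w) ^ 2 + (-((φ ^ 2 - 1) * w + 1)) ^ 2 - (w ^ 2 + 1 ^ 2) =
        (3 * φ + 1) * w ^ 2 - 2 * (φ + 2 - φ ^ 2) * w + 1 := by grind
      have : 0 < (3 * φ + 1) * w ^ 2 - 2 * (φ + 2 - φ ^ 2) * w + 1 := by
        nlinarith [sq_nonneg (w - 0.3157)]
      linarith

theorem euc_bad (hφ : φ ^ 3 = φ + 1) (w : ℝ) (hw : wE φ ≤ w) :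
    ∃ k : ℕ, 1 ≤ k ∧ k ≤ 3 ∧ eucN (Ru φ k w 1) (Rv φ k w 1) ≤ eucN w 1 := by
  have p1 := phi_gt hφ
  have p2 := phi_lt hφ
  have s1 := phisq_gt hφ
  have s2 := phisq_lt hφ
  rcases le_total w 1.2 with h | h
  · refine ⟨3, by norm_num, le_rfl, eucN_le ?_⟩
    rw [Ru3 hφ, Rv3 hφ]
    have e1 : ((φ + 1) * (w - 1)) ^ 2 + (φ ^ 2 * w - (φ ^ 2 - 1) * 1) ^ 2 - (w ^ 2 + 1 ^ 2) =
      (2 * φ ^ 2 + 3 * φ) * w ^ 2 - 2 * (φ ^ 2 + 3 * φ + 1) * w + (3 * φ + 1) := by grind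
    have := wE_neg_side hφ w hw h
    linarith
  · refine ⟨1, le_rfl, by norm_num, eucN_le ?_⟩
    rw [Ru1, Rv1]
    have : φ ^ 4 = φ ^ 2 + φ := by grind
    nlinarith

theorem euc_crit (hφ : φ ^ 3 = φ + 1) : Crit eucN φ (wE φ) where
  best := fun w _ h k hk => euc_best hφ w h k hk
  bad := fun w h => euc_bad hφ w h

theorem euc_dom (hφ : φ ^ 3 = φ + 1) : Dom eucN φ := by
  intro w a b c h1 h2 h3 h4
  by_contra hcon
  push Not at hcon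
  have p1 := phi_gt hφ
  have p2 := phi_lt hφ
  have s1 := phisq_gt hφ
  have s2 := phisq_lt hφ
  obtain ⟨k, hk, hs⟩ := euc_small hφ w
  have hlt := hcon k hk
  have hQ0 : 0 < Q φ w 1 := Q_pos hφ (Or.inr one_ne_zero)
  have hq : q φ a b c < 4.113 := by
    have g1 := euc_Q_le hφ (cu φ a b c w 1) (cv φ a b c w 1)
    rw [Q_comb hφ, ← eucN_sq] at g1
    have g2 : eucN (cu φ a b c w 1) (cv φ a b c w 1) ^ 2 <
        eucN (Ru φ k w 1) (Rv φ k w 1) ^ 2 :=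
      pow_lt_pow_left₀ hlt (eucN_ok.nonneg _ _) (by norm_num)
    by_contra hc
    push Not at hc
    have g3 := mul_le_mul_of_nonneg_right hc hQ0.le
    norm_num at *
    nlinarith
  rcases enum hφ a b c h1 h2 (hq.trans (by norm_num)) with h | h | h | h | h
  · exact h3 h
  · exact h4 h
  · obtain ⟨rfl, rfl, rfl⟩ : a = -2 ∧ b = 1 ∧ c = 1 := by simpa using h
    rw [q_lin hφ] at hq
    push_cast at hq
    norm_num at hq p1 p2 s1 s2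
    linarith
  · obtain ⟨rfl, rfl, rfl⟩ : a = -1 ∧ b = -1 ∧ c = 2 := by simpa using h
    rw [q_lin hφ] at hq
    push_cast at hq
    norm_num at hq p1 p2 s1 s2
    linarith
  · obtain ⟨rfl, rfl, rfl⟩ : a = 2 ∧ b = 2 ∧ c = -2 := by simpa using h
    rw [q_lin hφ] at hq
    push_cast at hq
    norm_num at hq p1 p2 s1 s2
    linarith

end Q247.PG
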