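import Pool.Agent.Q247.PG.Back

/-! The sup norm. -/

set_option autoImplicit false
set_option maxHeartbeats 1000000

namespace Q247.PG

variable {φ : ℝ}

/-- the sup norm on `ℝ²` -/
noncomputable def supN (a b : ℝ) : ℝ := max |a| |b|

theorem supN_ok : NOK supN where
  hom := fun t a b => by
    rw [supN, supN, abs_mul, abs_mul, mul_max_of_nonneg _ _ (abs_nonneg _)]
  l1 := fun a b => le_max_left _ _
  l2 := fun a b => le_max_right _ _
  ub := fun a b => max_le (by linarith [abs_nonneg b]) (by linarith [abs_nonneg a])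

theorem supN_sq_le {a b X : ℝ} (h1 : a ^ 2 ≤ X) (h2 : b ^ 2 ≤ X) : supN a b ^ 2 ≤ X := by
  rw [supN]
  rcases max_choice |a| |b| with h | h
  · rw [h, sq_abs]; exact h1
  · rw [h, sq_abs]; exact h2

/-- the smallest of the four last remainders is small -/
theorem sup_small (hφ : φ ^ 3 = φ + 1) (w : ℝ) :
    ∃ k : ℕ, k ≤ 3 ∧ supN (Ru φ k w 1) (Rv φ k w 1) ^ 2 ≤ 1.8 * Q φ w 1 := by
  have p1 := phi_gt hφ
  have p2 := phi_lt hφ
  have s1 := phisq_gt hφ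
  have s2 := phisq_lt hφ
  rcases le_total w 0.8 with h | h
  · refine ⟨0, by norm_num, supN_sq_le ?_ ?_⟩
    · rw [Ru, Q]; nlinarith
    · rw [Rv, Q]; nlinarith
  have hQ : w ^ 2 - 1.7552 * w + 1.3247 ≤ Q φ w 1 := by rw [Q]; nlinarith
  rcases le_total w 1 with h' | h'
  · refine ⟨3, le_rfl, supN_sq_le ?_ ?_⟩
    · rw [Ru3 hφ, mul_pow]
      have : (φ + 1) ^ 2 ≤ 5.405 := by nlinarith
      have := mul_le_mul_of_nonneg_right this (sq_nonneg (w - 1))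
      nlinarith
    · rw [Rv3 hφ]
      have l0 : 0 ≤ φ ^ 2 * w - (φ ^ 2 - 1) * 1 := by nlinarith
      have l1 : φ ^ 2 * w - (φ ^ 2 - 1) * 1 ≤ 1.7552 * w - 0.7547 := by nlinarith
      have := pow_le_pow_left₀ l0 l1 2
      nlinarith
  rcases le_total w 2 with h'' | h''
  · refine ⟨2, by norm_num, supN_sq_le ?_ ?_⟩
    · rw [Ru2 hφ]
      have l1 : (φ + 1) * 1 - φ * w ≤ 1 := by nlinarith
      have l2 : -1 ≤ (φ + 1) * 1 - φ * w := by nlinarith
      have l3 : ((φ + 1) * 1 - φ * w) ^ 2 ≤ 1 := by nlinarith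
      nlinarith
    · rw [Rv2 hφ]
      have l0 : 0 ≤ φ ^ 2 * (w - 1) := by nlinarith
      have l1 : φ ^ 2 * (w - 1) ≤ 1.7552 * (w - 1) := by nlinarith
      have := pow_le_pow_left₀ l0 l1 2
      nlinarith
  · refine ⟨1, by norm_num, supN_sq_le ?_ ?_⟩
    · rw [Ru1]
      nlinarith
    · rw [Rv1]
      have l1 : w - φ ^ 2 * 1 ≤ w - 1.7547 := by nlinarith
      have l0 : 0 ≤ w - φ ^ 2 * 1 := by nlinarith
      have := pow_le_pow_left₀ l0 l1 2
      nlinarith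

theorem sup_best (hφ : φ ^ 3 = φ + 1) (w : ℝ) (hw0 : w ≠ 0) (hw : w < 1 + φ - φ ^ 2) (k : ℕ)
    (hk : 1 ≤ k) : supN w 1 < supN (Ru φ k w 1) (Rv φ k w 1) := by
  have p1 := phi_gt hφ
  have p2 := phi_lt hφ
  have s1 := phisq_gt hφ
  have s2 := phisq_lt hφ
  have n0 : supN w 1 = max |w| 1 := by rw [supN, abs_one]
  by_cases h7 : 7 ≤ k
  · -- far away
    have hQ := supN_ok.Q_le hφ (Ru φ k w 1) (Rv φ k w 1)
    rw [Q_back hφ] at hQ
    have h1 : φ ^ 7 ≤ φ ^ k := pow_le_pow_right₀ (by linarith) h7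
    have h2 : φ ^ 7 = 2 * φ ^ 2 + 2 * φ + 1 := by grind
    have hQ0 : 0 < Q φ w 1 := Q_pos hφ (Or.inr one_ne_zero)
    have h3 : 7.15 * Q φ w 1 ≤ φ ^ k * Q φ w 1 := by
      refine mul_le_mul_of_nonneg_right ?_ hQ0.le
      norm_num at *
      linarith
    have h4 : supN w 1 ^ 2 < 7.15 / 4.0801 * Q φ w 1 := by
      refine lt_of_le_of_lt (supN_sq_le (X := max (w ^ 2) 1) (le_max_left _ _)
        ((one_pow 2).le.trans (le_max_right _ _))) ?_
      rw [max_lt_iff]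
      constructor
      · rw [Q]; nlinarith
      · rw [Q]; nlinarith
    refine lt_of_pow_lt_pow_left₀ 2 (supN_ok.nonneg _ _) ?_
    norm_num at *
    linarith
  · rw [n0, max_lt_iff]
    rcases lt_or_gt_of_ne hw0 with hneg | hpos
    · have ha : |w| = -w := abs_of_neg hneg
      rw [ha]
      obtain ⟨f, hf, hf1, hf2⟩ : ∃ f : ℝ, |f| ≤ supN (Ru φ k w 1) (Rv φ k w 1) ∧ -w < |f| ∧ 1 < |f| := by
        interval_cases k
        · exact ⟨_, supN_ok.l2 _ _, by rw [Rv1, lt_abs]; right; nlinarith,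
            by rw [Rv1, lt_abs]; right; nlinarith⟩
        · exact ⟨_, supN_ok.l1 _ _, by rw [Ru2 hφ, lt_abs]; left; nlinarith,
            by rw [Ru2 hφ, lt_abs]; left; nlinarith⟩
        · exact ⟨_, supN_ok.l1 _ _, by rw [Ru3 hφ, lt_abs]; right; nlinarith,
            by rw [Ru3 hφ, lt_abs]; right; nlinarith⟩
        · exact ⟨_, supN_ok.l1 _ _, by rw [Ru4 hφ, lt_abs]; left; nlinarith,
            by rw [Ru4 hφ, lt_abs]; left; nlinarith⟩
        · exact ⟨_, supN_ok.l2 _ _, by rw [Rv5 hφ, lt_abs]; left; nlinarith,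
            by rw [Rv5 hφ, lt_abs]; left; nlinarith⟩
        · exact ⟨_, supN_ok.l1 _ _, by rw [Ru6 hφ, lt_abs]; right; nlinarith,
            by rw [Ru6 hφ, lt_abs]; right; nlinarith⟩
      exact ⟨hf1.trans_le hf, hf2.trans_le hf⟩
    · have ha : |w| = w := abs_of_pos hpos
      rw [ha]
      have hw1 : w < 0.5701 := by norm_num at *; linarith
      have hk' : φ ^ 2 * (1 + φ - φ ^ 2) = 1 := by grind
      obtain ⟨f, hf, hf2⟩ : ∃ f : ℝ, |f| ≤ supN (Ru φ k w 1) (Rv φ k w 1) ∧ 1 < |f| := by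
        interval_cases k
        · exact ⟨_, supN_ok.l1 _ _, by rw [Ru1, lt_abs]; right; nlinarith⟩
        · exact ⟨_, supN_ok.l1 _ _, by rw [Ru2 hφ, lt_abs]; left; nlinarith⟩
        · refine ⟨_, supN_ok.l1 _ _, ?_⟩
          rw [Ru3 hφ, lt_abs]; right
          have h9 : (φ + 1) * (φ ^ 2 - φ) = 1 := by grind
          have : (φ + 1) * (φ ^ 2 - φ) < (φ + 1) * (1 - w) := by
            apply mul_lt_mul_of_pos_left <;> linarith
          linarith
        · exact ⟨_, supN_ok.l2 _ _, by rw [Rv4 hφ, lt_abs]; right; nlinarith⟩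
        · exact ⟨_, supN_ok.l2 _ _, by rw [Rv5 hφ, lt_abs]; left; nlinarith⟩
        · exact ⟨_, supN_ok.l1 _ _, by rw [Ru6 hφ, lt_abs]; right; nlinarith⟩
      exact ⟨by norm_num at *; linarith, hf2.trans_le hf⟩

theorem sup_bad (hφ : φ ^ 3 = φ + 1) (w : ℝ) (hw : 1 + φ - φ ^ 2 ≤ w) :
    ∃ k : ℕ, 1 ≤ k ∧ k ≤ 3 ∧ supN (Ru φ k w 1) (Rv φ k w 1) ≤ supN w 1 := by
  have p1 := phi_gt hφ
  have p2 := phi_lt hφ
  have s1 := phisq_gt hφ
  have s2 := phisq_lt hφ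
  have g1 := supN_ok.l1 w 1
  have g2 := supN_ok.l2 w 1
  rw [abs_one] at g2
  have g3 := (le_abs_self w).trans g1
  have hw0 : 0.56 ≤ w := by norm_num at *; linarith
  rcases le_total φ w with h | h
  · refine ⟨1, le_rfl, by norm_num, ?_⟩
    rw [Ru1, Rv1]
    refine max_le ?_ ?_
    · rw [mul_one, abs_neg, abs_of_pos (by linarith)]; linarith
    · rw [abs_le]; constructor
      · nlinarith
      · nlinarith
  rcases le_total 1 w with h' | h'
  · refine ⟨2, by norm_num, by norm_num, ?_⟩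
    rw [Ru2 hφ, Rv2 hφ]
    refine max_le ?_ ?_
    · rw [abs_le]; constructor
      · nlinarith
      · nlinarith
    · rw [abs_le]; constructor
      · nlinarith
      · nlinarith
  · refine ⟨3, by norm_num, le_rfl, ?_⟩
    have h9 : (φ + 1) * (φ ^ 2 - φ) = 1 := by grind
    have h8 : φ ^ 2 * (1 + φ - φ ^ 2) = 1 := by grind
    rw [Ru3 hφ, Rv3 hφ]
    refine max_le ?_ ?_
    · rw [abs_le]; constructor
      · have : (φ + 1) * (1 - w) ≤ (φ + 1) * (φ ^ 2 - φ) := by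
          apply mul_le_mul_of_nonneg_left <;> linarith
        linarith
      · nlinarith
    · rw [abs_le]; constructor
      · nlinarith
      · nlinarith

theorem sup_crit (hφ : φ ^ 3 = φ + 1) : Crit supN φ (1 + φ - φ ^ 2) where
  best := fun w h0 h k hk => sup_best hφ w h0 h k hk
  bad := fun w h => sup_bad hφ w h

theorem sup_dom7 (hφ : φ ^ 3 = φ + 1) (w : ℝ) :
    supN w 1 ≤ supN (cu φ (-2 : ℤ) (1 : ℤ) (1 : ℤ) w 1) (cv φ (-2 : ℤ) (1 : ℤ) (1 : ℤ) w 1) := by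
  have p1 := phi_gt hφ
  have p2 := phi_lt hφ
  have s1 := phisq_gt hφ
  have s2 := phisq_lt hφ
  set S := supN (cu φ (-2 : ℤ) (1 : ℤ) (1 : ℤ) w 1) (cv φ (-2 : ℤ) (1 : ℤ) (1 : ℤ) w 1) with hS
  have g1 : |cu φ (-2 : ℤ) (1 : ℤ) (1 : ℤ) w 1| ≤ S := supN_ok.l1 _ _
  have g2 : |cv φ (-2 : ℤ) (1 : ℤ) (1 : ℤ) w 1| ≤ S := supN_ok.l2 _ _
  rw [cu, abs_le] at g1
  rw [cv, abs_le] at g2
  push_cast at g1 g2
  rw [supN, abs_one]
  refine max_le ?_ ?_
  · rw [abs_le]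
    rcases le_total w 0 with h | h
    · constructor <;> nlinarith
    · rcases le_total w 1 with h' | h'
      · constructor <;> nlinarith
      · constructor <;> nlinarith
  · rcases le_total w (-1) with h | h
    · nlinarith
    · rcases le_total w 1 with h' | h'
      · nlinarith
      · nlinarith

theorem sup_dom5 (hφ : φ ^ 3 = φ + 1) (w : ℝ) :
    ∃ k : ℕ, k ≤ 3 ∧ supN (Ru φ k w 1) (Rv φ k w 1) ≤
      supN (cu φ (-1 : ℤ) (-1 : ℤ) (2 : ℤ) w 1) (cv φ (-1 : ℤ) (-1 : ℤ) (2 : ℤ) w 1) := by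
  have p1 := phi_gt hφ
  have p2 := phi_lt hφ
  have s1 := phisq_gt hφ
  have s2 := phisq_lt hφ
  set S := supN (cu φ (-1 : ℤ) (-1 : ℤ) (2 : ℤ) w 1) (cv φ (-1 : ℤ) (-1 : ℤ) (2 : ℤ) w 1) with hS
  have g1 : |cu φ (-1 : ℤ) (-1 : ℤ) (2 : ℤ) w 1| ≤ S := supN_ok.l1 _ _
  have g2 : |cv φ (-1 : ℤ) (-1 : ℤ) (2 : ℤ) w 1| ≤ S := supN_ok.l2 _ _
  rw [cu, abs_le] at g1
  rw [cv, abs_le] at g2
  push_cast at g1 g2
  rcases le_total w 1.09 with h | h
  · refine ⟨0, by norm_num, ?_⟩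
    rw [Ru, Rv, supN, abs_one]
    refine max_le ?_ ?_
    · rw [abs_le]
      constructor <;> nlinarith
    · nlinarith
  rcases le_total w 1.4302 with h' | h'
  · refine ⟨2, by norm_num, ?_⟩
    rw [Ru2 hφ, Rv2 hφ]
    refine max_le ?_ ?_
    · rw [abs_le]
      constructor
      · nlinarith
      · rcases le_total w φ with h2 | h2
        · nlinarith
        · nlinarith
    · rw [abs_le]
      constructor <;> nlinarith
  · refine ⟨0, by norm_num, ?_⟩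
    rw [Ru, Rv, supN, abs_one]
    refine max_le ?_ ?_
    · rw [abs_le]
      constructor <;> nlinarith
    · nlinarith

theorem dom_two {N : ℝ → ℝ → ℝ} (hN : NOK N) (hφ : φ ^ 3 = φ + 1) (w : ℝ) :
    N (Ru φ 2 w 1) (Rv φ 2 w 1) ≤
      N (cu φ (2 : ℤ) (2 : ℤ) (-2 : ℤ) w 1) (cv φ (2 : ℤ) (2 : ℤ) (-2 : ℤ) w 1) := by
  have e1 : cu φ (2 : ℤ) (2 : ℤ) (-2 : ℤ) w 1 = 2 * Ru φ 2 w 1 := by
    rw [cu, Ru2 hφ]; push_cast; ring
  have e2 : cv φ (2 : ℤ) (2 : ℤ) (-2 : ℤ) w 1 = 2 * Rv φ 2 w 1 := by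
    rw [cv, Rv2 hφ]; push_cast; ring
  rw [e1, e2, hN.hom]
  have := hN.nonneg (Ru φ 2 w 1) (Rv φ 2 w 1)
  rw [abs_of_pos (by norm_num : (0:ℝ) < 2)]
  linarith

theorem sup_dom (hφ : φ ^ 3 = φ + 1) : Dom supN φ := by
  intro w a b c h1 h2 h3 h4
  by_contra hcon
  push Not at hcon
  obtain ⟨k, hk, hs⟩ := sup_small hφ w
  have hlt := hcon k hk
  have hQ0 : 0 < Q φ w 1 := Q_pos hφ (Or.inr one_ne_zero)
  have hq : q φ a b c < 7.35 := by
    have g1 := supN_ok.Q_le hφ (cu φ a b c w 1) (cv φ a b c w 1)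
    rw [Q_comb hφ] at g1
    have g2 : supN (cu φ a b c w 1) (cv φ a b c w 1) ^ 2 <
        supN (Ru φ k w 1) (Rv φ k w 1) ^ 2 :=
      pow_lt_pow_left₀ hlt (supN_ok.nonneg _ _) (by norm_num)
    by_contra hc
    push Not at hc
    have g3 := mul_le_mul_of_nonneg_right hc hQ0.le
    norm_num at *
    nlinarith
  rcases enum hφ a b c h1 h2 hq with h | h | h | h | h
  · exact h3 h
  · exact h4 h
  · obtain ⟨rfl, rfl, rfl⟩ : a = -2 ∧ b = 1 ∧ c = 1 := by simpa using h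
    have := hcon 0 (by norm_num)
    rw [Ru, Rv] at this
    exact absurd (sup_dom7 hφ w) (not_le.2 this)
  · obtain ⟨rfl, rfl, rfl⟩ : a = -1 ∧ b = -1 ∧ c = 2 := by simpa using h
    obtain ⟨k, hk, hs⟩ := sup_dom5 hφ w
    exact absurd hs (not_le.2 (hcon k hk))
  · obtain ⟨rfl, rfl, rfl⟩ : a = 2 ∧ b = 2 ∧ c = -2 := by simpa using h
    exact absurd (dom_two supN_ok hφ w) (not_le.2 (hcon 2 (by norm_num)))

end Q247.PG
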