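import Pool.Agent.Q247.PG.Vec
import Pool.Agent.H534R3.UD

/-! The angles of the remainders are equidistributed. -/

set_option autoImplicit false
set_option maxHeartbeats 1000000

open Filter Topology Real

namespace Q247.PG

open Pool.Agent.H534R3.UDist

variable {φ : ℝ}

/-- the rotation angle -/
noncomputable def th (φ : ℝ) : ℝ := Real.arccos (-(φ * Real.sqrt φ) / 2)

theorem sqrt_sq (hφ : φ ^ 3 = φ + 1) : Real.sqrt φ ^ 2 = φ := Real.sq_sqrt (phi_pos hφ).le

theorem cos_th (hφ : φ ^ 3 = φ + 1) : Real.cos (th φ) = -(φ * Real.sqrt φ) / 2 := by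
  have p1 := phi_gt hφ
  have p2 := phi_lt hφ
  have hs := sqrt_sq hφ
  have hs0 := Real.sqrt_nonneg φ
  have h1 : φ * Real.sqrt φ ≤ 2 := by
    have : (φ * Real.sqrt φ) ^ 2 ≤ 2 ^ 2 := by
      rw [mul_pow, hs]; nlinarith
    exact le_of_sq_le_sq this (by norm_num) |> fun h => h
  have h0 : 0 ≤ φ * Real.sqrt φ := by positivity
  rw [th, Real.cos_arccos (by linarith) (by linarith)]

theorem sin_th (hφ : φ ^ 3 = φ + 1) : Real.sqrt φ * Real.sin (th φ) =
    Real.sqrt (3 * φ - φ ^ 2) / 2 := by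
  have p1 := phi_gt hφ
  have p2 := phi_lt hφ
  have hs := sqrt_sq hφ
  have h0 : 0 ≤ Real.sin (th φ) := by
    rw [th, Real.sin_arccos]; exact Real.sqrt_nonneg _
  have h1 : (Real.sqrt φ * Real.sin (th φ)) ^ 2 = (Real.sqrt (3 * φ - φ ^ 2) / 2) ^ 2 := by
    rw [mul_pow, hs, Real.sin_sq, cos_th hφ, div_pow, div_pow, neg_sq, mul_pow, hs,
      Real.sq_sqrt (by nlinarith)]
    grind
  exact (sq_eq_sq₀ (mul_nonneg (Real.sqrt_nonneg _) h0) (by positivity)).1 h1

theorem sin_pos (hφ : φ ^ 3 = φ + 1) : 0 < Real.sin (th φ) := by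
  have p1 := phi_gt hφ
  have p2 := phi_lt hφ
  have h := sin_th hφ
  have h1 : 0 < Real.sqrt (3 * φ - φ ^ 2) := Real.sqrt_pos.2 (by nlinarith)
  by_contra hc
  push Not at hc
  have := mul_nonpos_of_nonneg_of_nonpos (Real.sqrt_nonneg φ) hc
  linarith

theorem e_rec (hφ : φ ^ 3 = φ + 1) (n : ℕ) :
    e φ (n + 2) = -φ * e φ (n + 1) - (φ ^ 2 - 1) * e φ n := by
  rw [show n + 2 = n + 1 + 1 from rfl, e_succ (n + 1), d_succ hφ]
  ring

theorem exists_trig (hφ : φ ^ 3 = φ + 1) : ∃ A α : ℝ, ∀ n : ℕ,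
    e φ n * Real.sqrt φ ^ n = A * Real.cos (n * th φ + α) := by
  have hsin := sin_pos hφ
  have hs := sqrt_sq hφ
  have hs0 : 0 < Real.sqrt φ := Real.sqrt_pos.2 (phi_pos hφ)
  set c₀ : ℝ := e φ 0 with hc0
  set s₀ : ℝ := (Real.cos (th φ) * e φ 0 - Real.sqrt φ * e φ 1) / Real.sin (th φ) with hs0'
  set z : ℂ := ⟨c₀, s₀⟩ with hz
  refine ⟨‖z‖, Complex.arg z, ?_⟩
  have h1 : ‖z‖ * Real.cos (Complex.arg z) = c₀ := Complex.norm_mul_cos_arg z
  have h2 : ‖z‖ * Real.sin (Complex.arg z) = s₀ := Complex.norm_mul_sin_arg z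
  suffices h : ∀ n : ℕ, e φ n * Real.sqrt φ ^ n = ‖z‖ * Real.cos (n * th φ + Complex.arg z) ∧
      e φ (n + 1) * Real.sqrt φ ^ (n + 1) =
        ‖z‖ * Real.cos ((n + 1 : ℕ) * th φ + Complex.arg z) from fun n => (h n).1
  intro n
  induction n with
  | zero =>
    constructor
    · simp [h1, hc0]
    · simp only [zero_add, pow_one, Nat.cast_one, one_mul]
      rw [Real.cos_add]
      have : ‖z‖ * (Real.cos (th φ) * Real.cos z.arg - Real.sin (th φ) * Real.sin z.arg) =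
        Real.cos (th φ) * (‖z‖ * Real.cos z.arg) - Real.sin (th φ) * (‖z‖ * Real.sin z.arg) := by
        ring
      rw [this, h1, h2, hs0', mul_div_cancel₀ _ hsin.ne', hc0]
      ring
  | succ n ih =>
    refine ⟨ih.2, ?_⟩
    rw [show n + 1 + 1 = n + 2 from rfl, e_rec hφ]
    have e1 : (((n + 2 : ℕ) : ℝ) * th φ + z.arg) = (((n + 1 : ℕ) : ℝ) * th φ + z.arg) + th φ := by
      push_cast; ring
    have e2 : ((n : ℝ) * th φ + z.arg) = (((n + 1 : ℕ) : ℝ) * th φ + z.arg) - th φ := by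
      push_cast; ring
    have h3 : ‖z‖ * Real.cos (((n + 2 : ℕ) : ℝ) * th φ + z.arg) =
        2 * Real.cos (th φ) * (‖z‖ * Real.cos (((n + 1 : ℕ) : ℝ) * th φ + z.arg)) -
          ‖z‖ * Real.cos ((n : ℝ) * th φ + z.arg) := by
      rw [e1, e2, Real.cos_add, Real.cos_sub]; ring
    rw [h3, ← ih.1, ← ih.2, cos_th hφ]
    have h4 : Real.sqrt φ ^ (n + 2) = Real.sqrt φ ^ n * φ := by rw [pow_add, hs]
    have h5 : Real.sqrt φ ^ (n + 1) = Real.sqrt φ ^ n * Real.sqrt φ := pow_succ _ _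
    rw [h4, h5]
    have h6 : (φ ^ 2 - 1) * φ = 1 := by linear_combination hφ
    generalize e φ (n + 1) = u
    generalize e φ n = v
    generalize Real.sqrt φ ^ n = r
    have hs' : Real.sqrt φ * Real.sqrt φ = φ := by rw [← sq, hs]
    linear_combination (-v * r) * h6 + u * r * φ * hs'

theorem sin_ne (hφ : φ ^ 3 = φ + 1) (m : ℕ) (hm : 1 ≤ m) : Real.sin (m * th φ) ≠ 0 := by
  intro h0
  obtain ⟨A, α, hA⟩ := exists_trig hφ
  have hs0 : 0 < Real.sqrt φ := Real.sqrt_pos.2 (phi_pos hφ)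
  have a0 := hA 0
  have a1 := hA 1
  have am := hA m
  have am1 := hA (m + 1)
  have e1 : (((m + 1 : ℕ) : ℝ) * th φ + α) = (m * th φ) + (th φ + α) := by push_cast; ring
  rw [Real.cos_add, h0, zero_mul, sub_zero] at am
  rw [e1, Real.cos_add, h0, zero_mul, sub_zero] at am1
  simp only [Nat.cast_zero, zero_mul, zero_add, pow_zero, mul_one, Nat.cast_one, one_mul,
    pow_one] at a0 a1
  have h2 : e φ m * Real.sqrt φ ^ m = Real.cos (m * th φ) * e φ 0 := by rw [am, a0]; ring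
  have h3 : e φ (m + 1) * Real.sqrt φ ^ m = Real.cos (m * th φ) * e φ 1 := by
    have : e φ (m + 1) * Real.sqrt φ ^ m * Real.sqrt φ =
        Real.cos (m * th φ) * e φ 1 * Real.sqrt φ := by
      rw [mul_assoc, ← pow_succ, am1, mul_assoc, a1]; ring
    exact mul_right_cancel₀ hs0.ne' this
  have e01 : e φ 0 = e φ 1 := by norm_num [e, P]
  have h4 : e φ m = e φ (m + 1) := by
    have hp : Real.sqrt φ ^ m ≠ 0 := pow_ne_zero _ hs0.ne'
    refine mul_right_cancel₀ hp ?_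
    rw [h2, h3, e01]
  rw [e, e] at h4
  have hirr := phi_irrat hφ
  have h5 : (((P m - P (m + 1) : ℤ)) : ℝ) * φ = ((P (m + 1) - P (m + 2) : ℤ) : ℝ) := by
    push_cast
    have : (P (m + 1 + 1) : ℝ) = P (m + 2) := rfl
    rw [this] at h4
    linarith
  by_cases hz : P m - P (m + 1) = 0
  · rw [hz] at h5
    simp only [Int.cast_zero, zero_mul] at h5
    have h6 : P (m + 1) - P (m + 2) = 0 := by exact_mod_cast h5.symm
    obtain ⟨j, rfl⟩ := Nat.exists_eq_add_of_le' hm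
    have h7 : P (j + 1 + 2) = P (j + 1) + P j := rfl
    have := P_pos j
    omega
  · apply hirr
    refine ⟨((P (m + 1) - P (m + 2) : ℤ) : ℚ) / ((P m - P (m + 1) : ℤ) : ℚ), ?_⟩
    have hz' : ((P m - P (m + 1) : ℤ) : ℝ) ≠ 0 := by exact_mod_cast hz
    rw [Rat.cast_div, Rat.cast_intCast, Rat.cast_intCast, ← h5]
    field_simp

theorem weyl_rot (hφ : φ ^ 3 = φ + 1) (η : ℝ) :
    UD (fun n : ℕ => (n : ℝ) * (th φ / π) + η) := by
  apply ud_of_weyl
  intro h hh
  have hne : ee (h * (th φ / π)) ≠ 1 := by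
    intro hc
    rw [ee, Complex.exp_eq_one_iff] at hc
    obtain ⟨k, hk⟩ := hc
    have h2 : (2 * (π : ℂ) * Complex.I) ≠ 0 := Complex.two_pi_I_ne_zero
    have h3 : (((h * (th φ / π) : ℝ)) : ℂ) = (k : ℂ) := by
      have : (2 * (π : ℂ) * Complex.I) * ((h * (th φ / π) : ℝ) : ℂ) = (2 * π * Complex.I) * k := by
        rw [hk]; ring
      exact mul_left_cancel₀ h2 this
    have h4 : (h * (th φ / π) : ℝ) = k := by exact_mod_cast h3
    apply sin_ne hφ h hh
    have h5 : (h : ℝ) * th φ = k * π := by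
      rw [← h4]; field_simp
    rw [h5]
    exact Real.sin_int_mul_pi k
  have hgeo : ∀ N : ℕ, ‖∑ n ∈ Finset.range N, ee (h * ((n : ℝ) * (th φ / π) + η))‖ ≤
      2 / ‖ee (h * (th φ / π)) - 1‖ := by
    intro N
    have e1 : ∀ n : ℕ, ee (h * ((n : ℝ) * (th φ / π) + η)) =
        ee (h * η) * ee (h * (th φ / π)) ^ n := by
      intro n
      rw [ee, ee, ee, ← Complex.exp_nat_mul, ← Complex.exp_add]
      congr 1
      push_cast
      ring
    simp_rw [e1]
    rw [← Finset.mul_sum, geom_sum_eq hne, norm_mul, norm_ee, one_mul, norm_div]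
    refine div_le_div_of_nonneg_right ?_ (norm_nonneg _)
    refine (norm_sub_le _ _).trans ?_
    rw [norm_pow, norm_ee, one_pow, norm_one]
    norm_num
  have hlim : Tendsto (fun N : ℕ => (2 / ‖ee (h * (th φ / π)) - 1‖) / (N : ℝ)) atTop (𝓝 0) :=
    tendsto_const_div_atTop_nhds_zero_nat _
  refine squeeze_zero (fun N => by positivity) (fun N => ?_) hlim
  exact div_le_div_of_nonneg_right (hgeo N) (Nat.cast_nonneg _)

end Q247.PG
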