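import Pool.Agent.Q247.PG.Back

/-! Integer vectors against Padovan vectors. -/

set_option autoImplicit false
set_option maxHeartbeats 1000000

open Filter Topology

namespace Q247.PG

variable {φ : ℝ}

theorem basis (n : ℕ) (x y₁ y₂ : ℤ) : ∃ a b c : ℤ,
    x = a * P n + b * P (n + 1) + c * P (n + 2) ∧
    y₁ = a * P (n + 1) + b * P (n + 2) + c * P (n + 3) ∧
    y₂ = a * P (n + 2) + b * P (n + 3) + c * P (n + 4) := by
  induction n with
  | zero =>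
    refine ⟨2 * x - y₂, y₂ - y₁, y₁ - x, ?_, ?_, ?_⟩ <;> norm_num [P] <;> ring
  | succ n ih =>
    obtain ⟨a, b, c, h1, h2, h3⟩ := ih
    refine ⟨b - a, c, a, ?_, ?_, ?_⟩
    · rw [h1, show n + 1 + 1 = n + 2 from rfl, show n + 1 + 2 = n + 3 from rfl, P_rec n]
      ring
    · rw [h2, show n + 1 + 1 = n + 2 from rfl, show n + 1 + 2 = n + 3 from rfl,
        show n + 1 + 3 = n + 4 from rfl, show P (n + 4) = P (n + 2) + P (n + 1) from rfl]
      ring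
    · rw [h3, show n + 1 + 2 = n + 3 from rfl,
        show n + 1 + 3 = n + 4 from rfl, show n + 1 + 4 = n + 5 from rfl,
        show P (n + 5) = P (n + 3) + P (n + 2) from rfl]
      ring

/-- the expanding functional -/
def L (φ x y₁ y₂ : ℝ) : ℝ := y₂ + φ * y₁ + (φ ^ 2 - 1) * x

theorem L_pad (hφ : φ ^ 3 = φ + 1) (n : ℕ) :
    L φ (P n) (P (n + 1)) (P (n + 2)) = φ ^ (n + 4) := by
  induction n with
  | zero =>
    norm_num [P, L]
    grind
  | succ n ih =>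
    rw [show n + 1 + 1 = n + 2 from rfl, show n + 1 + 2 = n + 3 from rfl, P_rec n]
    rw [show n + 1 + 4 = (n + 4) + 1 by ring, pow_succ, ← ih, L, L]
    push_cast
    grind

theorem L_eq (x y₁ y₂ : ℝ) :
    L φ x y₁ y₂ = (3 * φ ^ 2 - 1) * x - ((x * φ ^ 2 - y₂) + φ * (x * φ - y₁)) := by
  rw [L]; ring

theorem L_comb (hφ : φ ^ 3 = φ + 1) (n : ℕ) (a b c : ℝ) :
    L φ (a * P n + b * P (n + 1) + c * P (n + 2))
      (a * P (n + 1) + b * P (n + 2) + c * P (n + 3))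
      (a * P (n + 2) + b * P (n + 3) + c * P (n + 4)) = (a + b * φ + c * φ ^ 2) * φ ^ (n + 4) := by
  have h0 := L_pad hφ n
  have h1 := L_pad hφ (n + 1)
  have h2 := L_pad hφ (n + 2)
  rw [show n + 1 + 1 = n + 2 from rfl, show n + 1 + 2 = n + 3 from rfl] at h1
  rw [show n + 2 + 1 = n + 3 from rfl, show n + 2 + 2 = n + 4 from rfl] at h2
  have e : L φ (a * P n + b * P (n + 1) + c * P (n + 2))
      (a * P (n + 1) + b * P (n + 2) + c * P (n + 3))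
      (a * P (n + 2) + b * P (n + 3) + c * P (n + 4)) =
      a * L φ (P n) (P (n + 1)) (P (n + 2)) + b * L φ (P (n + 1)) (P (n + 2)) (P (n + 3)) +
      c * L φ (P (n + 2)) (P (n + 3)) (P (n + 4)) := by
    rw [L, L, L, L]; ring
  rw [e, h0, h1, h2]
  ring

theorem Q_pow (hφ : φ ^ 3 = φ + 1) (n : ℕ) :
    φ ^ n * Q φ (e φ n) (d φ n) = Q φ (e φ 0) (d φ 0) := by
  induction n with
  | zero => simp
  | succ n ih =>
    rw [← ih, ← Q_succ hφ n]; ring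

theorem sq_le_Q (hφ : φ ^ 3 = φ + 1) (u v : ℝ) : u ^ 2 + v ^ 2 ≤ 4 * Q φ u v := by
  have p1 := phi_gt hφ
  have p2 := phi_lt hφ
  have s1 := phisq_gt hφ
  have s2 := phisq_lt hφ
  rw [Q]
  have h1 : 0 ≤ (3 * u - 2 * φ ^ 2 * v) ^ 2 := sq_nonneg _
  have h2 : (φ ^ 2) ^ 2 ≤ 1.7552 ^ 2 := by nlinarith
  have h3 : 0 ≤ (12 * φ - 3 - 4 * (φ ^ 2) ^ 2) * v ^ 2 := by
    refine mul_nonneg ?_ (sq_nonneg v)
    norm_num at *
    linarith
  nlinarith

theorem e_ne (hφ : φ ^ 3 = φ + 1) (n : ℕ) : e φ n ≠ 0 := by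
  intro h
  rw [e, sub_eq_zero] at h
  have hirr := phi_irrat hφ
  apply hirr
  refine ⟨(P (n + 1) : ℚ) / (P n : ℚ), ?_⟩
  have h0 : (P n : ℝ) ≠ 0 := by
    have := P_pos n
    exact_mod_cast (show P n ≠ 0 by omega)
  push_cast
  rw [← h]
  field_simp

theorem d_ne (hφ : φ ^ 3 = φ + 1) (n : ℕ) : d φ (n + 1) ≠ 0 := by
  rw [d_succ hφ]
  have := phisq_gt hφ
  exact mul_ne_zero (by linarith) (e_ne hφ n)

theorem Q_tendsto (hφ : φ ^ 3 = φ + 1) :
    Tendsto (fun n => Q φ (e φ n) (d φ n)) atTop (𝓝 0) := by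
  have p1 := phi_gt hφ
  have h1 : (fun n => Q φ (e φ n) (d φ n)) = fun n => Q φ (e φ 0) (d φ 0) * (φ⁻¹) ^ n := by
    funext n
    rw [← Q_pow hφ n, inv_pow]
    have : φ ^ n ≠ 0 := pow_ne_zero _ (by linarith)
    field_simp
  rw [h1, ← mul_zero (Q φ (e φ 0) (d φ 0))]
  exact (tendsto_pow_atTop_nhds_zero_of_lt_one (by positivity)
    (inv_lt_one_of_one_lt₀ (by linarith))).const_mul _

theorem N_tendsto {N : ℝ → ℝ → ℝ} (hN : NOK N) (hφ : φ ^ 3 = φ + 1) :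
    Tendsto (fun n => N (e φ n) (d φ n)) atTop (𝓝 0) := by
  have h := Q_tendsto hφ
  have h2 : Tendsto (fun n => 4 * Real.sqrt (Q φ (e φ n) (d φ n))) atTop (𝓝 0) := by
    have := (h.sqrt).const_mul 4
    simpa using this
  refine squeeze_zero (fun n => hN.nonneg _ _) (fun n => ?_) h2
  refine (hN.ub _ _).trans ?_
  have h3 := sq_le_Q hφ (e φ n) (d φ n)
  have hq : 0 ≤ Q φ (e φ n) (d φ n) := by nlinarith [sq_nonneg (e φ n), sq_nonneg (d φ n)]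
  have h4 : |e φ n| ≤ 2 * Real.sqrt (Q φ (e φ n) (d φ n)) := by
    refine abs_le_of_sq_le_sq' ?_ (by positivity) |> abs_le.2
    rw [mul_pow, Real.sq_sqrt hq]
    nlinarith [sq_nonneg (d φ n)]
  have h5 : |d φ n| ≤ 2 * Real.sqrt (Q φ (e φ n) (d φ n)) := by
    refine abs_le_of_sq_le_sq' ?_ (by positivity) |> abs_le.2
    rw [mul_pow, Real.sq_sqrt hq]
    nlinarith [sq_nonneg (e φ n)]
  linarith

/-- Any vector is dominated by one of the last four Padovan vectors. -/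
theorem key {N : ℝ → ℝ → ℝ} (hN : NOK N) (hφ : φ ^ 3 = φ + 1) (hD : Dom N φ) :
    ∃ n₀ : ℕ, 5 ≤ n₀ ∧ ∀ n, n₀ ≤ n → N (e φ n) (d φ n) < 1 / 4 ∧
      ∀ x y₁ y₂ : ℤ, P n ≤ x → x < P (n + 1) →
      (x, y₁, y₂) = (P n, P (n + 1), P (n + 2)) ∨
      ∃ k : ℕ, k ≤ 3 ∧ N (e φ (n - k)) (d φ (n - k)) ≤ N (x * φ - y₁) (x * φ ^ 2 - y₂) := by
  have p1 := phi_gt hφ
  have p2 := phi_lt hφ
  have s1 := phisq_gt hφ
  have s2 := phisq_lt hφ
  have hlt : ∀ᶠ n in atTop, N (e φ n) (d φ n) < 1 / 4 :=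
    (N_tendsto hN hφ).eventually (gt_mem_nhds (by norm_num))
  have hpow : ∀ᶠ n in atTop, (5000 : ℝ) ≤ φ ^ (n + 4) := by
    have := tendsto_pow_atTop_atTop_of_one_lt (show 1 < φ by linarith)
    exact ((tendsto_add_atTop_iff_nat 4).2 this).eventually_ge_atTop 5000
  obtain ⟨m, hm⟩ := eventually_atTop.1 (hlt.and hpow)
  refine ⟨max m 5, le_max_right _ _, fun n hn => ⟨(hm n ((le_max_left _ _).trans hn)).1, ?_⟩⟩
  intro x y₁ y₂ hx1 hx2
  have hn5 : 5 ≤ n := (le_max_right _ _).trans hn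
  obtain ⟨hr, hpw⟩ := hm n ((le_max_left _ _).trans hn)
  have hr' := (hm (n + 1) (((le_max_left _ _).trans hn).trans (Nat.le_succ n))).1
  obtain ⟨a, b, c, h1, h2, h3⟩ := basis n x y₁ y₂
  by_cases c1 : (a, b, c) = (1, 0, 0)
  · left
    obtain ⟨rfl, rfl, rfl⟩ : a = 1 ∧ b = 0 ∧ c = 0 := by simpa using c1
    simp only [one_mul, zero_mul, add_zero] at h1 h2 h3
    rw [h1, h2, h3]
  by_cases c2 : (a, b, c) = (0, 1, 0)
  · exfalso
    obtain ⟨rfl, rfl, rfl⟩ : a = 0 ∧ b = 1 ∧ c = 0 := by simpa using c2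
    simp only [one_mul, zero_mul, add_zero, zero_add] at h1
    omega
  right
  by_cases hge : N (e φ n) (d φ n) ≤ N (x * φ - y₁) (x * φ ^ 2 - y₂)
  · exact ⟨0, by norm_num, by simpa using hge⟩
  push Not at hge
  -- the window
  have hz1 : |(x : ℝ) * φ - y₁| < 1 / 4 := ((hN.l1 _ _).trans_lt hge).trans hr
  have hz2 : |(x : ℝ) * φ ^ 2 - y₂| < 1 / 4 := ((hN.l2 _ _).trans_lt hge).trans hr
  have he1 : |e φ n| < 1 / 4 := (hN.l1 _ _).trans_lt hr
  have he2 : |d φ n| < 1 / 4 := (hN.l2 _ _).trans_lt hr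
  have he1' : |e φ (n + 1)| < 1 / 4 := (hN.l1 _ _).trans_lt hr'
  have he2' : |d φ (n + 1)| < 1 / 4 := (hN.l2 _ _).trans_lt hr'
  rw [abs_lt] at hz1 hz2 he1 he2 he1' he2'
  have hL : L φ x y₁ y₂ = (a + b * φ + c * φ ^ 2) * φ ^ (n + 4) := by
    rw [← L_comb hφ n, h1, h2, h3]
    push_cast
    rfl
  have hLn := L_pad hφ n
  have hLn' := L_pad hφ (n + 1)
  rw [show n + 1 + 1 = n + 2 from rfl, show n + 1 + 2 = n + 3 from rfl] at hLn'
  rw [L_eq] at hL hLn hLn'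
  have ee1 : (P n : ℝ) * φ ^ 2 - P (n + 2) = d φ n := rfl
  have ee2 : (P n : ℝ) * φ - P (n + 1) = e φ n := rfl
  have ee3 : (P (n + 1) : ℝ) * φ ^ 2 - P (n + 3) = d φ (n + 1) := rfl
  have ee4 : (P (n + 1) : ℝ) * φ - P (n + 2) = e φ (n + 1) := rfl
  rw [ee1, ee2] at hLn
  rw [ee3, ee4] at hLn'
  have hx1' : (P n : ℝ) ≤ x := by exact_mod_cast hx1
  have hx2' : (x : ℝ) ≤ P (n + 1) := by exact_mod_cast hx2.le
  have hpw' : φ ^ (n + 1 + 4) = φ ^ (n + 4) * φ := by rw [← pow_succ]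
  rw [hpw'] at hLn'
  set T := φ ^ (n + 4) with hT
  have hT0 : 0 < T := by linarith
  have k1 : (3 * φ ^ 2 - 1) * (P n : ℝ) ≤ (3 * φ ^ 2 - 1) * x :=
    mul_le_mul_of_nonneg_left hx1' (by linarith)
  have k2 : (3 * φ ^ 2 - 1) * (x : ℝ) ≤ (3 * φ ^ 2 - 1) * P (n + 1) :=
    mul_le_mul_of_nonneg_left hx2' (by linarith)
  have m1 : |φ * ((x : ℝ) * φ - y₁)| ≤ 1.3248 * (1 / 4) := by
    rw [abs_mul, abs_of_pos (by linarith : (0:ℝ) < φ)]
    exact mul_le_mul p2.le (abs_le.2 ⟨hz1.1.le, hz1.2.le⟩) (abs_nonneg _) (by norm_num)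
  have m2 : |φ * e φ n| ≤ 1.3248 * (1 / 4) := by
    rw [abs_mul, abs_of_pos (by linarith : (0:ℝ) < φ)]
    exact mul_le_mul p2.le (abs_le.2 ⟨he1.1.le, he1.2.le⟩) (abs_nonneg _) (by norm_num)
  have m3 : |φ * e φ (n + 1)| ≤ 1.3248 * (1 / 4) := by
    rw [abs_mul, abs_of_pos (by linarith : (0:ℝ) < φ)]
    exact mul_le_mul p2.le (abs_le.2 ⟨he1'.1.le, he1'.2.le⟩) (abs_nonneg _) (by norm_num)
  rw [abs_le] at m1 m2 m3
  norm_num at m1 m2 m3
  have w1 : T - 4 < (a + b * φ + c * φ ^ 2) * T := by linarith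
  have w2 : (a + b * φ + c * φ ^ 2) * T < T * φ + 4 := by linarith
  have v1 : 0.999 < a + b * φ + c * φ ^ 2 := by
    by_contra hc
    push Not at hc
    have := mul_le_mul_of_nonneg_right hc hT0.le
    norm_num at this
    linarith
  have v2 : a + b * φ + c * φ ^ 2 < φ + 0.001 := by
    by_contra hc
    push Not at hc
    have := mul_le_mul_of_nonneg_right hc hT0.le
    norm_num at this
    nlinarith
  have hdn : d φ n ≠ 0 := by
    obtain ⟨j, rfl⟩ := Nat.exists_eq_add_of_le' (show 1 ≤ n by omega)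
    exact d_ne hφ j
  obtain ⟨k, hk, hdom⟩ := hD (e φ n / d φ n) a b c v1 v2 c1 c2
  refine ⟨k, hk, ?_⟩
  have hseq := R_seq hφ k (n - k)
  rw [Nat.sub_add_cancel (by omega)] at hseq
  have t1 : e φ n = d φ n * (e φ n / d φ n) := by field_simp
  have t2 : d φ n = d φ n * 1 := (mul_one _).symm
  have r1 : Ru φ k (e φ n) (d φ n) = d φ n * Ru φ k (e φ n / d φ n) 1 := by
    rw [← Ru_smul, mul_one]
    congr 1
  have r2 : Rv φ k (e φ n) (d φ n) = d φ n * Rv φ k (e φ n / d φ n) 1 := by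
    rw [← Rv_smul, mul_one]
    congr 1
  have x1 : (x : ℝ) * φ - y₁ = d φ n * cu φ a b c (e φ n / d φ n) 1 := by
    have : d φ n * cu φ a b c (e φ n / d φ n) 1 = cu φ a b c (e φ n) (d φ n) := by
      rw [cu, cu]; field_simp
    rw [this, cu_seq hφ, h1, h2, e, e, e]
    push_cast
    ring_nf
  have x2 : (x : ℝ) * φ ^ 2 - y₂ = d φ n * cv φ a b c (e φ n / d φ n) 1 := by
    have : d φ n * cv φ a b c (e φ n / d φ n) 1 = cv φ a b c (e φ n) (d φ n) := by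
      rw [cv, cv]; field_simp
    rw [this, cv_seq hφ, h1, h3, d, d, d]
    push_cast
    ring_nf
  rw [← hseq.1, ← hseq.2, r1, r2, x1, x2, hN.hom, hN.hom]
  exact mul_le_mul_of_nonneg_left hdom (abs_nonneg _)

end Q247.PG
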